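import Pool.Agent.MMD.Defs

/-! # Counting templates -/

open Set Function

namespace Pool.Agent.MMD

lemma mem_box {k N : ℕ} {n : Fin k → ℤ} : n ∈ box k N ↔ ∀ i, 0 ≤ n i ∧ n i < N := by
  simp [box]

lemma card_box (k N : ℕ) : (box k N).card = N ^ k := by
  simp [box]

/-- the short non-zero vectors -/
noncomputable def short (k Q : ℕ) : Finset (Fin k → ℤ) :=
  (Fintype.piFinset fun _ => Finset.Ioo (-(Q : ℤ)) Q).erase 0

lemma mem_short {k Q : ℕ} {v : Fin k → ℤ} :
    v ∈ short k Q ↔ v ≠ 0 ∧ ∀ i, -(Q : ℤ) < v i ∧ v i < Q := by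
  simp [short]

lemma card_short_le (k Q : ℕ) : (short k Q).card ≤ (2 * Q) ^ k := by
  refine (Finset.card_erase_le).trans ?_
  rw [Fintype.card_piFinset]
  simp only [Int.card_Ioo, Finset.prod_const, Finset.card_univ, Fintype.card_fin]
  refine Nat.pow_le_pow_left ?_ k
  omega

lemma sub_mem_short {k Q : ℕ} {i j : Fin k → ℤ} (hi : i ∈ box k Q) (hj : j ∈ box k Q)
    (hij : i ≠ j) : i - j ∈ short k Q := by
  rw [mem_short]
  refine ⟨sub_ne_zero.mpr hij, fun a => ?_⟩
  have h1 := mem_box.mp hi a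
  have h2 := mem_box.mp hj a
  simp only [Pi.sub_apply]
  constructor <;> omega

/-- representatives of the classes of the box modulo `v` -/
noncomputable def reps (k L : ℕ) (v : Fin k → ℤ) : Finset (Fin k → ℤ) :=
  (box k L).filter fun n => n - v ∉ box k L

lemma exists_rep {k L : ℕ} {v : Fin k → ℤ} (hv : v ≠ 0) {n : Fin k → ℤ} (hn : n ∈ box k L) :
    ∃ r ∈ reps k L v, ∃ j : ℕ, n = r + j • v := by
  have h1 : ∃ j : ℕ, n - (j + 1) • v ∉ box k L := by
    by_contra h
    push Not at h
    obtain ⟨i, hi⟩ : ∃ i, v i ≠ 0 := by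
      by_contra h2
      push Not at h2
      exact hv (funext h2)
    have h3 := mem_box.mp (h L) i
    have h4 := mem_box.mp hn i
    rw [Pi.sub_apply, Pi.smul_apply] at h3
    simp only [nsmul_eq_mul, Nat.cast_add, Nat.cast_one] at h3
    rcases lt_or_gt_of_ne hi with h5 | h5
    · nlinarith
    · nlinarith
  classical
  refine ⟨n - (Nat.find h1) • v, ?_, Nat.find h1, by simp⟩
  rw [reps, Finset.mem_filter]
  constructor
  · rcases Nat.eq_zero_or_pos (Nat.find h1) with h0 | h0
    · rw [h0]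
      simpa using hn
    · have h2 := Nat.find_min h1 (m := Nat.find h1 - 1) (by omega)
      rw [not_not] at h2
      rwa [show Nat.find h1 - 1 + 1 = Nat.find h1 by omega] at h2
  · have h2 := Nat.find_spec h1
    rwa [add_smul, one_smul, ← sub_sub] at h2

lemma card_reps_le {k L Q : ℕ} {v : Fin k → ℤ} (hv : v ∈ short k Q) :
    (reps k L v).card ≤ k * (Q * L ^ (k - 1)) := by
  classical
  have hsub : reps k L v ⊆ Finset.univ.biUnion fun i : Fin k =>
      Fintype.piFinset (Function.update (fun _ => Finset.Ico 0 (L : ℤ)) i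
        ((Finset.Ico 0 (L : ℤ)).filter fun t => t - v i ∉ Finset.Ico 0 (L : ℤ))) := by
    intro n hn
    rw [reps, Finset.mem_filter] at hn
    have h1 : ∃ i, n i - v i ∉ Finset.Ico 0 (L : ℤ) := by
      by_contra h
      push Not at h
      refine hn.2 (mem_box.mpr fun i => ?_)
      have := h i
      rw [Finset.mem_Ico] at this
      simpa using this
    obtain ⟨i, hi⟩ := h1
    rw [Finset.mem_biUnion]
    refine ⟨i, Finset.mem_univ _, ?_⟩
    rw [Fintype.mem_piFinset]
    intro a
    have h2 := mem_box.mp hn.1 a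
    by_cases ha : a = i
    · subst ha
      rw [Function.update_self, Finset.mem_filter, Finset.mem_Ico]
      exact ⟨h2, hi⟩
    · rw [Function.update_of_ne ha, Finset.mem_Ico]
      exact h2
  refine (Finset.card_le_card hsub).trans ?_
  refine Finset.card_biUnion_le.trans ?_
  refine (Finset.sum_le_card_nsmul _ _ (Q * L ^ (k - 1)) fun i _ => ?_).trans ?_
  · rw [Fintype.card_piFinset]
    rw [← Finset.mul_prod_erase Finset.univ _ (Finset.mem_univ i)]
    rw [Function.update_self]
    have h1 : ∏ a ∈ Finset.univ.erase i, (Function.update (fun _ => Finset.Ico 0 (L : ℤ)) i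
        ((Finset.Ico 0 (L : ℤ)).filter fun t => t - v i ∉ Finset.Ico 0 (L : ℤ)) a).card
        = L ^ (k - 1) := by
      rw [Finset.prod_congr rfl (g := fun _ => L)]
      · rw [Finset.prod_const, Finset.card_erase_of_mem (Finset.mem_univ _), Finset.card_univ,
          Fintype.card_fin]
      · intro a ha
        rw [Function.update_of_ne (Finset.ne_of_mem_erase ha)]
        simp
    rw [h1]
    refine Nat.mul_le_mul_right _ ?_
    have hvi := (mem_short.mp hv).2 i
    have h2 : ((Finset.Ico 0 (L : ℤ)).filter fun t => t - v i ∉ Finset.Ico 0 (L : ℤ)) ⊆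
        if 0 ≤ v i then Finset.Ico 0 (v i) else Finset.Ico (L + v i) L := by
      intro t ht
      rw [Finset.mem_filter, Finset.mem_Ico, Finset.mem_Ico] at ht
      split_ifs with h
      · rw [Finset.mem_Ico]
        omega
      · rw [Finset.mem_Ico]
        omega
    refine (Finset.card_le_card h2).trans ?_
    split_ifs with h
    · rw [Int.card_Ico]
      omega
    · rw [Int.card_Ico]
      omega
  · simp

/-- points of a grid -/
lemma exists_grid {K : ℕ} (hK : 0 < K) {x : ℝ} (hx : x ∈ Icc (0 : ℝ) 1) :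
    ∃ j : Fin (2 * K + 1), |x - (j : ℕ) / (2 * K)| ≤ 1 / (4 * K) := by
  have hK' : (0 : ℝ) < K := by exact_mod_cast hK
  have h0 : 0 ≤ 2 * K * x + 1 / 2 := by
    have := mul_nonneg (mul_nonneg zero_le_two hK'.le) hx.1
    linarith
  have h1 := Nat.floor_le h0
  have h2 := Nat.lt_floor_add_one (2 * K * x + 1 / 2)
  have h3 : 2 * K * x ≤ 2 * K := by
    have := mul_le_mul_of_nonneg_left hx.2 (mul_nonneg zero_le_two hK'.le)
    linarith
  have h4 : ⌊2 * K * x + 1 / 2⌋₊ < 2 * K + 1 := by
    rw [Nat.floor_lt h0]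
    push_cast
    linarith
  refine ⟨⟨_, h4⟩, ?_⟩
  simp only
  rw [abs_le]
  have h5 : x - (⌊2 * K * x + 1 / 2⌋₊ : ℝ) / (2 * K) = (2 * K * x - ⌊2 * K * x + 1 / 2⌋₊) / (2 * K) := by
    field_simp
  rw [h5]
  have h6 : (1 : ℝ) / (4 * K) = (1 / 2) / (2 * K) := by
    field_simp
    ring
  rw [h6, ← neg_div]
  constructor
  · exact div_le_div_of_nonneg_right (by linarith) (by positivity)
  · exact div_le_div_of_nonneg_right (by linarith) (by positivity)

lemma periodic_nsmul {k : ℕ} {v : Fin k → ℤ} {u : (Fin k → ℤ) → ℝ} (h : ∀ n, u (n + v) = u n)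
    (j : ℕ) (n : Fin k → ℤ) : u (n + j • v) = u n := by
  induction j with
  | zero => simp
  | succ j ih => rw [succ_nsmul, ← add_assoc, h, ih]

/-- The number of templates. -/
theorem exists_templates (k L m K Q : ℕ) (hK : 0 < K) :
    ∃ 𝒯 : Finset ((Fin k → ℤ) → ℝ),
      𝒯.card ≤ (2 ^ (L ^ k) * (2 * K + 1) ^ m) * 3 ^ (L ^ k) *
        ((2 * Q) ^ k * (2 * K + 1) ^ (k * (Q * L ^ (k - 1)))) ∧
      ∀ (x : (Fin k → ℤ) → ℝ) (S : Finset (Fin k → ℤ)), S ⊆ box k L → S.card ≤ m →
        (∀ n ∈ S, x n ∈ Icc (0 : ℝ) 1) → ∀ v ∈ short k Q, ∀ u : (Fin k → ℤ) → ℝ,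
        (∀ n, u n ∈ Icc (0 : ℝ) 1) → (∀ n, u (n + v) = u n) →
        (∀ n ∈ box k L, n ∉ S → x n = 0 ∨ x n = 1 ∨ |x n - u n| < 1 / (4 * K)) →
        ∃ t ∈ 𝒯, ∀ n ∈ box k L, |x n - t n| < 1 / (2 * K) := by
  classical
  let α := Σ S : {S : Finset (box k L) // S.card ≤ m}, (S.1 → Fin (2 * K + 1))
  let β := Σ v : short k Q, (reps k L v.1 → Fin (2 * K + 1))
  have hrep : ∀ (v : short k Q) (n : box k L), ∃ r : reps k L v.1, ∃ j : ℕ,
      (n : Fin k → ℤ) = (r : Fin k → ℤ) + j • v.1 := by
    intro v n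
    obtain ⟨r, hr, j, hj⟩ := exists_rep (mem_short.mp v.2).1 n.2
    exact ⟨⟨r, hr⟩, j, hj⟩
  choose rep hrep using hrep
  let T : α × (box k L → Fin 3) × β → (Fin k → ℤ) → ℝ := fun p n =>
    if h : n ∈ box k L then
      if hS : (⟨n, h⟩ : box k L) ∈ p.1.1.1 then ((p.1.2 ⟨_, hS⟩ : ℕ) : ℝ) / (2 * K)
      else if p.2.1 ⟨n, h⟩ = 0 then 0 else if p.2.1 ⟨n, h⟩ = 1 then 1
      else ((p.2.2.2 (rep p.2.2.1 ⟨n, h⟩) : ℕ) : ℝ) / (2 * K)
    else 0
  refine ⟨Finset.univ.image T, ?_, ?_⟩
  · refine Finset.card_image_le.trans ?_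
    rw [Finset.card_univ, Fintype.card_prod, Fintype.card_prod]
    have h1 : Fintype.card α ≤ 2 ^ (L ^ k) * (2 * K + 1) ^ m := by
      rw [Fintype.card_sigma]
      refine (Finset.sum_le_card_nsmul _ _ ((2 * K + 1) ^ m) fun S _ => ?_).trans ?_
      · rw [Fintype.card_fun, Fintype.card_fin, Fintype.card_coe]
        exact Nat.pow_le_pow_right (by omega) S.2
      · rw [smul_eq_mul, Finset.card_univ]
        refine Nat.mul_le_mul_right _ ?_
        refine (Fintype.card_subtype_le _).trans ?_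
        rw [Fintype.card_finset, Fintype.card_coe, card_box]
    have h2 : Fintype.card (box k L → Fin 3) = 3 ^ (L ^ k) := by
      rw [Fintype.card_fun, Fintype.card_fin, Fintype.card_coe, card_box]
    have h3 : Fintype.card β ≤ (2 * Q) ^ k * (2 * K + 1) ^ (k * (Q * L ^ (k - 1))) := by
      rw [Fintype.card_sigma]
      refine (Finset.sum_le_card_nsmul _ _ ((2 * K + 1) ^ (k * (Q * L ^ (k - 1))))
        fun v _ => ?_).trans ?_
      · rw [Fintype.card_fun, Fintype.card_fin, Fintype.card_coe]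
        exact Nat.pow_le_pow_right (by omega) (card_reps_le v.2)
      · rw [smul_eq_mul, Finset.card_univ]
        refine Nat.mul_le_mul_right _ ?_
        rw [Fintype.card_coe]
        exact card_short_le k Q
    rw [h2, mul_assoc]
    exact Nat.mul_le_mul h1 (Nat.mul_le_mul_left _ h3)
  · intro x S hS hSm hx v hv u hu huv hout
    have hK' : (0 : ℝ) < K := by exact_mod_cast hK
    have hlt : (1 : ℝ) / (4 * K) < 1 / (2 * K) := by
      apply one_div_lt_one_div_of_lt <;> linarith
    have hsum : (1 : ℝ) / (4 * K) + 1 / (4 * K) = 1 / (2 * K) := by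
      field_simp
      norm_num
    let S' : Finset (box k L) := Finset.univ.filter fun n => (n : Fin k → ℤ) ∈ S
    have hS' : S'.card ≤ m := by
      refine le_trans ?_ hSm
      have h1 : (S'.map ⟨Subtype.val, Subtype.val_injective⟩).card = S'.card :=
        Finset.card_map _
      rw [← h1]
      refine Finset.card_le_card ?_
      intro n hn
      simp only [S', Finset.mem_map, Finset.mem_filter, Finset.mem_univ, true_and,
        Embedding.coeFn_mk, Subtype.exists] at hn
      obtain ⟨n', hn', h2, h3⟩ := hn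
      rw [← h3]
      exact h2
    have hb : ∀ n : S', ∃ j : Fin (2 * K + 1), |x n - (j : ℕ) / (2 * K)| ≤ 1 / (4 * K) := by
      intro n
      have := n.2
      simp only [S', Finset.mem_filter, Finset.mem_univ, true_and] at this
      exact exists_grid hK (hx _ this)
    choose b hb using hb
    have ha : ∀ r : reps k L v, ∃ j : Fin (2 * K + 1), |u r - (j : ℕ) / (2 * K)| ≤ 1 / (4 * K) :=
      fun r => exists_grid hK (hu _)
    choose a ha using ha
    let o : box k L → Fin 3 := fun n => if x n = 0 then 0 else if x n = 1 then 1 else 2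
    refine ⟨T (⟨⟨S', hS'⟩, b⟩, o, ⟨⟨v, hv⟩, a⟩), Finset.mem_image_of_mem _ (Finset.mem_univ _),
      fun n hn => ?_⟩
    simp only [T, dif_pos hn]
    by_cases hnS : (⟨n, hn⟩ : box k L) ∈ S'
    · rw [dif_pos hnS]
      exact (hb ⟨_, hnS⟩).trans_lt hlt
    · rw [dif_neg hnS]
      have hnS' : n ∉ S := by
        intro h
        exact hnS (by simpa [S'] using h)
      by_cases hx0 : x n = 0
      · simp only [o, hx0, if_true, sub_zero, abs_zero]
        positivity
      by_cases hx1 : x n = 1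
      · simp [o, hx1]
        positivity
      have h3 : |x n - u n| < 1 / (4 * K) := by
        rcases hout n hn hnS' with h | h | h
        · exact absurd h hx0
        · exact absurd h hx1
        · exact h
      simp only [o, hx0, hx1, if_false]
      rw [if_neg (by decide), if_neg (by decide)]
      obtain ⟨j, hj⟩ := hrep ⟨v, hv⟩ ⟨n, hn⟩
      have h4 : u n = u (rep ⟨v, hv⟩ ⟨n, hn⟩) := by
        have h5 := periodic_nsmul huv j (rep ⟨v, hv⟩ ⟨n, hn⟩ : Fin k → ℤ)
        simp only at hj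
        rw [← hj] at h5
        exact h5
      rw [h4] at h3
      have h6 := ha (rep ⟨v, hv⟩ ⟨n, hn⟩)
      calc _ ≤ |x n - u (rep ⟨v, hv⟩ ⟨n, hn⟩)| + |u (rep ⟨v, hv⟩ ⟨n, hn⟩) -
            ((a (rep ⟨v, hv⟩ ⟨n, hn⟩) : ℕ) : ℝ) / (2 * K)| := abs_sub_le _ _ _
        _ < 1 / (4 * K) + 1 / (4 * K) := add_lt_add_of_lt_of_le h3 h6
        _ = 1 / (2 * K) := hsum

/-- counting points with a property in a large box by tiling with small boxes -/
lemma card_filter_tiles {k Q R D : ℕ} (hQ : 0 < Q) (p : (Fin k → ℤ) → Prop) [DecidablePred p]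
    (h : ∀ c : Fin k → ℤ, ((box k Q).filter fun i => p (i + (Q : ℤ) • c)).card ≤ D) :
    ((box k (Q * R)).filter p).card ≤ D * R ^ k := by
  classical
  have hQ' : (0 : ℤ) < Q := by exact_mod_cast hQ
  have h1 : ∀ n ∈ (box k (Q * R)).filter p, (fun i => n i / (Q : ℤ)) ∈ box k R := by
    intro n hn
    rw [Finset.mem_filter] at hn
    rw [mem_box]
    intro i
    have h2 := mem_box.mp hn.1 i
    push_cast at h2
    refine ⟨Int.ediv_nonneg h2.1 hQ'.le, ?_⟩
    rw [Int.ediv_lt_iff_lt_mul hQ']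
    rw [mul_comm]
    exact h2.2
  refine (Finset.card_le_mul_card_image_of_maps_to h1 D fun c _ => ?_).trans_eq ?_
  · refine le_trans ?_ (h c)
    refine Finset.card_le_card_of_injOn (fun n => n - (Q : ℤ) • c) ?_ ?_
    · intro n hn
      rw [Finset.mem_coe, Finset.mem_filter, Finset.mem_filter] at hn
      rw [Finset.mem_coe, Finset.mem_filter, sub_add_cancel]
      refine ⟨mem_box.mpr fun i => ?_, hn.1.2⟩
      have h2 : n i / (Q : ℤ) = c i := congrFun hn.2 i
      simp only [Pi.sub_apply, Pi.smul_apply, smul_eq_mul]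
      rw [← h2]
      have h3 := Int.emod_nonneg (n i) hQ'.ne'
      have h4 := Int.emod_lt_of_pos (n i) hQ'
      have h5 := Int.emod_add_mul_ediv (n i) Q
      constructor <;> linarith
    · intro n _ n' _ hnn
      simpa using hnn
  · rw [card_box]

end Pool.Agent.MMD
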