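import Mathlib

/-! # Mean dimension and metric mean dimension of `ℤ^k`-systems -/

open Set Filter Topology

namespace Pool.Agent.MMD

universe u

/-- The covering dimension of `Y` is at most `D`: every finite open cover has a finite open
refinement such that every point lies in at most `D + 1` of its members. -/
def CoveringDimLE (Y : Type*) [TopologicalSpace Y] (D : ℕ) : Prop :=
  ∀ 𝒰 : Set (Set Y), 𝒰.Finite → (∀ U ∈ 𝒰, IsOpen U) → ⋃₀ 𝒰 = univ →
    ∃ 𝒱 : Set (Set Y), 𝒱.Finite ∧ (∀ V ∈ 𝒱, IsOpen V) ∧ ⋃₀ 𝒱 = univ ∧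
      (∀ V ∈ 𝒱, ∃ U ∈ 𝒰, V ⊆ U) ∧ ∀ y, {V ∈ 𝒱 | y ∈ V}.ncard ≤ D + 1

/-- The box `{0, …, N - 1}^k`. -/
noncomputable def box (k N : ℕ) : Finset (Fin k → ℤ) :=
  Fintype.piFinset fun _ => Finset.Ico 0 (N : ℤ)

/-- `d` is a metric on `X` which induces the topology of `X`. -/
structure IsCompatibleMetric {X : Type u} [TopologicalSpace X] (d : X → X → ℝ) : Prop where
  dist_self : ∀ x, d x x = 0
  eq_of_dist_eq_zero : ∀ x y, d x y = 0 → x = y
  dist_comm : ∀ x y, d x y = d y x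
  dist_triangle : ∀ x y z, d x z ≤ d x y + d y z
  isOpen_iff : ∀ s : Set X, IsOpen s ↔ ∀ x ∈ s, ∃ r > 0, ∀ y, d x y < r → y ∈ s

section

variable (k : ℕ) {X : Type u} [AddAction (Fin k → ℤ) X]

/-- The diameter of `A` with respect to the metric `d_N`, where `d_N (x, y)` is the maximum of
`d (n + x, n + y)` over `n` in the box of side `N`, is less than `ε`. -/
def DynDiamLT (d : X → X → ℝ) (N : ℕ) (A : Set X) (ε : ℝ) : Prop :=
  ∃ r < ε, ∀ x ∈ A, ∀ y ∈ A, ∀ n ∈ box k N, d (n +ᵥ x) (n +ᵥ y) ≤ r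

variable [TopologicalSpace X]

/-- The number `#(X, d_N, ε)`: the least cardinality of a cover of `X` by open sets of
`d_N`-diameter less than `ε`. -/
noncomputable def coverNum (d : X → X → ℝ) (N : ℕ) (ε : ℝ) : ℕ :=
  sInf {m | ∃ 𝒰 : Set (Set X), 𝒰.Finite ∧ 𝒰.ncard = m ∧
    (∀ U ∈ 𝒰, IsOpen U ∧ DynDiamLT k d N U ε) ∧ ⋃₀ 𝒰 = univ}

/-- The number `S (X, d, ε)`, the limit of `N^{-k} log #(X, d_N, ε)`. -/
noncomputable def coverRate (d : X → X → ℝ) (ε : ℝ) : EReal :=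
  limsup (fun N : ℕ => ((Real.log (coverNum k d N ε) / (N : ℝ) ^ k : ℝ) : EReal)) atTop

/-- The metric mean dimension of `X` with respect to `d`. -/
noncomputable def mmdim (d : X → X → ℝ) : EReal :=
  liminf (fun ε : ℝ => coverRate k d ε / ((Real.log (1 / ε) : ℝ) : EReal)) (𝓝[>] 0)

/-- The number `Widim_ε (X, d_N)`: the least `m` such that there is a continuous map `f` from `X` to
the geometric realisation of a simplicial complex `K` with finitely many vertices (`0, …, n - 1`)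
and simplices of dimension at most `m`, all fibres of which have `d_N`-diameter less than `ε`.
A point of the geometric realisation is given by its barycentric coordinates. -/
noncomputable def widim (d : X → X → ℝ) (N : ℕ) (ε : ℝ) : ℕ :=
  sInf {m | ∃ (n : ℕ) (K : Set (Finset (Fin n))) (f : X → Fin n → ℝ),
    (∀ s ∈ K, s.card ≤ m + 1) ∧ (∀ s ∈ K, ∀ t ⊆ s, t ∈ K) ∧ Continuous f ∧
    (∀ x, (∀ v, 0 ≤ f x v) ∧ ∑ v, f x v = 1 ∧ ∃ s ∈ K, ∀ v, f x v ≠ 0 → v ∈ s) ∧
    ∀ p, DynDiamLT k d N (f ⁻¹' {p}) ε}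

/-- The mean dimension of `X`, computed with the metric `d`. -/
noncomputable def mdim (d : X → X → ℝ) : EReal :=
  limsup (fun ε : ℝ =>
    limsup (fun N : ℕ => ((widim k d N ε / (N : ℝ) ^ k : ℝ) : EReal)) atTop) (𝓝[>] 0)

end

end Pool.Agent.MMD
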