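import Pool.Agent.MMD.Defs

/-! # Generic functions on finite-dimensional systems -/

open Set Function

namespace Pool.Agent.MMD

universe u

lemma exists_coloured {Y : Type u} [TopologicalSpace Y] [CompactSpace Y] [T2Space Y] {D : ℕ}
    (hD : CoveringDimLE Y D) (𝒰 : Set (Set Y)) (h𝒰 : 𝒰.Finite) (ho : ∀ U ∈ 𝒰, IsOpen U)
    (hc : ⋃₀ 𝒰 = univ) :
    ∃ (κ : Type u) (_ : Fintype κ) (O E : κ → Set Y) (c : κ → Fin (D + 1)),
      (∀ S, IsOpen (O S)) ∧ (∀ S, IsClosed (E S)) ∧ (∀ S, E S ⊆ O S) ∧ (⋃ S, E S = univ) ∧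
      (∀ S, ∃ U ∈ 𝒰, O S ⊆ U) ∧ (∀ S S', S ≠ S' → c S = c S' → Disjoint (O S) (O S')) := by
  classical
  obtain ⟨𝒱, h𝒱, hVo, hVc, hVU, hVD⟩ := hD 𝒰 h𝒰 ho hc
  have : Fintype 𝒱 := h𝒱.fintype
  obtain ⟨f, hf⟩ := PartitionOfUnity.exists_isSubordinate (s := (univ : Set Y)) isClosed_univ
    (fun V : 𝒱 => (V : Set Y)) (fun V => hVo V V.2) (by rw [← sUnion_eq_iUnion, hVc])
  have hfV : ∀ (V : 𝒱) (y : Y), 0 < f V y → y ∈ (V : Set Y) := fun V y h =>
    hf V (subset_tsupport _ (by simpa using h.ne'))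
  let κ := {S : Finset 𝒱 // S.Nonempty ∧ S.card ≤ D + 1}
  let O : κ → Set Y := fun S =>
    (⋂ V ∈ S.1, ⋂ V' ∈ (S.1)ᶜ, {y | f V' y < f V y}) ∩ ⋂ V ∈ S.1, {y | 0 < f V y}
  have hmem : ∀ (S : κ) (y : Y), y ∈ O S ↔ (∀ V ∈ S.1, ∀ V' ∉ S.1, f V' y < f V y) ∧
      ∀ V ∈ S.1, 0 < f V y := by
    intro S y
    simp only [O, mem_inter_iff, mem_iInter, Finset.mem_compl, mem_ofPred_eq]
  have hO : ∀ S, IsOpen (O S) := by
    intro S
    refine IsOpen.inter ?_ ?_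
    · exact isOpen_biInter_finset fun V _ => isOpen_biInter_finset fun V' _ =>
        isOpen_lt (f V').continuous (f V).continuous
    · exact isOpen_biInter_finset fun V _ => isOpen_lt continuous_const (f V).continuous
  have hcov : ⋃ S, O S = univ := by
    refine eq_univ_of_forall fun y => ?_
    have hne : ∃ V : 𝒱, 0 < f V y := by
      by_contra h
      push Not at h
      have h1 := f.sum_eq_one (mem_univ y)
      have h2 : ∀ V, f V y = 0 := fun V => le_antisymm (h V) (f.nonneg V y)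
      simp [h2] at h1
    obtain ⟨V₀, hV₀⟩ := hne
    obtain ⟨V₁, -, hV₁⟩ := Finset.exists_max_image (Finset.univ : Finset 𝒱) (fun V => f V y)
      ⟨V₀, Finset.mem_univ _⟩
    have hpos : 0 < f V₁ y := hV₀.trans_le (hV₁ V₀ (Finset.mem_univ _))
    let S : Finset 𝒱 := Finset.univ.filter fun V => f V y = f V₁ y
    have hS1 : S.Nonempty := ⟨V₁, by simp [S]⟩
    have hS2 : S.card ≤ D + 1 := by
      refine le_trans ?_ (hVD y)
      have : (S.map ⟨Subtype.val, Subtype.val_injective⟩ : Finset (Set Y)).card = S.card :=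
        Finset.card_map _
      rw [← this, ← Set.ncard_coe_finset]
      refine Set.ncard_le_ncard ?_ (h𝒱.subset fun V hV => hV.1)
      intro V hV
      simp only [Finset.coe_map, Embedding.coeFn_mk, mem_image, Finset.mem_coe] at hV
      obtain ⟨V', hV', rfl⟩ := hV
      refine ⟨V'.2, hfV V' y ?_⟩
      simp only [S, Finset.mem_filter] at hV'
      rw [hV'.2]
      exact hpos
    refine mem_iUnion.mpr ⟨⟨S, hS1, hS2⟩, (hmem _ _).mpr ⟨?_, ?_⟩⟩
    · intro V hV V' hV'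
      simp only [S, Finset.mem_filter, Finset.mem_univ, true_and] at hV hV'
      rw [hV]
      exact lt_of_le_of_ne (hV₁ V' (Finset.mem_univ _)) hV'
    · intro V hV
      simp only [S, Finset.mem_filter, Finset.mem_univ, true_and] at hV
      rw [hV]
      exact hpos
  obtain ⟨E, hE1, hE2, hE3⟩ := exists_iUnion_eq_closed_subset hO (fun _ => Set.toFinite _) hcov
  refine ⟨κ, inferInstance, O, E, fun S => ⟨S.1.card - 1, by
    have := S.2.2; have := S.2.1.card_pos; omega⟩, hO, hE2, hE3, hE1, ?_, ?_⟩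
  · intro S
    obtain ⟨V, hV⟩ := S.2.1
    obtain ⟨U, hU, hVU'⟩ := hVU V V.2
    exact ⟨U, hU, fun y hy => hVU' (hfV V y (((hmem S y).mp hy).2 V hV))⟩
  · intro S S' hne hcard
    have hcard' : S.1.card = S'.1.card := by
      have h1 := congrArg Fin.val hcard
      simp only at h1
      have h2 := S.2.1.card_pos
      have h3 := S'.2.1.card_pos
      omega
    rw [Set.disjoint_left]
    intro y hy hy'
    have hy1 := (hmem S y).mp hy
    have hy2 := (hmem S' y).mp hy'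
    have h1 : ¬ S.1 ⊆ S'.1 := fun h => hne (Subtype.ext (Finset.eq_of_subset_of_card_le h hcard'.ge))
    have h2 : ¬ S'.1 ⊆ S.1 := fun h =>
      hne (Subtype.ext (Finset.eq_of_subset_of_card_le h hcard'.le).symm)
    obtain ⟨V, hV, hV'⟩ := Finset.not_subset.mp h1
    obtain ⟨V₂, hV₂, hV₂'⟩ := Finset.not_subset.mp h2
    exact lt_asymm (hy1.1 V hV V₂ hV₂') (hy2.1 V₂ hV₂ V hV')

section dense

variable {Y : Type u} [TopologicalSpace Y] [CompactSpace Y] [T2Space Y] {G : Type*} [AddGroup G]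
  [AddAction G Y] [ContinuousConstVAdd G Y]

omit [T2Space Y] in
lemma exists_small_cover (h : C(Y, ℝ)) {n : ℕ} (e : Fin n → G) {η : ℝ} (hη : 0 < η) :
    ∃ 𝒰 : Set (Set Y), 𝒰.Finite ∧ (∀ U ∈ 𝒰, IsOpen U) ∧ ⋃₀ 𝒰 = univ ∧
      ∀ U ∈ 𝒰, ∀ y ∈ U, ∀ y' ∈ U, ∀ a, |h (e a +ᵥ y) - h (e a +ᵥ y')| < η := by
  let U : Y → Set Y := fun y => ⋂ a, {y' | |h (e a +ᵥ y') - h (e a +ᵥ y)| < η / 2}
  have hU : ∀ y, IsOpen (U y) := fun y => isOpen_iInter_of_finite fun a =>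
    isOpen_lt (((h.continuous.comp (continuous_const_vadd (e a))).sub continuous_const).abs)
      continuous_const
  have hUm : ∀ y, y ∈ U y := fun y => mem_iInter.mpr fun a => by
    simp only [mem_ofPred_eq, sub_self, abs_zero]
    exact half_pos hη
  obtain ⟨t, ht⟩ := isCompact_univ.elim_finite_subcover U hU fun y _ => mem_iUnion.mpr ⟨y, hUm y⟩
  refine ⟨U '' (t : Set Y), t.finite_toSet.image _, ?_, ?_, ?_⟩
  · rintro _ ⟨y, -, rfl⟩
    exact hU y
  · refine eq_univ_of_forall fun y => ?_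
    obtain ⟨y', hy', hy⟩ := mem_iUnion₂.mp (ht (mem_univ y))
    exact ⟨U y', ⟨y', hy', rfl⟩, hy⟩
  · rintro _ ⟨y₀, -, rfl⟩ y hy y' hy' a
    have h1 := mem_iInter.mp hy a
    have h2 := mem_iInter.mp hy' a
    simp only [mem_ofPred_eq] at h1 h2
    rw [abs_sub_lt_iff] at *
    constructor <;> linarith [h1.1, h1.2, h2.1, h2.2]

/-- one step of the perturbation -/
lemma exists_perturb {D : ℕ} (hD : CoveringDimLE Y D) {K : Set Y} (hK : IsClosed K)
    (e : Fin (D + 1) → G)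
    (he : ∀ a b, a ≠ b → Disjoint ((fun y => e a +ᵥ y) '' K) ((fun y => e b +ᵥ y) '' K))
    (w : ℝ) (h : C(Y, ℝ)) {η : ℝ} (hη : 0 < η) :
    ∃ h' : C(Y, ℝ), (∀ z, |h' z - h z| ≤ η) ∧ ∀ y ∈ K, ∃ a, h' (e a +ᵥ y) ≠ w := by
  classical
  obtain ⟨𝒰, h𝒰, hUo, hUc, hUη⟩ := exists_small_cover h e (half_pos hη)
  obtain ⟨κ, _, O, E, c, hO, hE, hEO, hEc, hOU, hdisj⟩ := exists_coloured hD 𝒰 h𝒰 hUo hUc
  have hval : ∀ S, ∃ v : ℝ, v ≠ w ∧ ∀ y ∈ O S, |v - h (e (c S) +ᵥ y)| < η := by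
    intro S
    rcases (O S).eq_empty_or_nonempty with h0 | ⟨y₀, hy₀⟩
    · exact ⟨w + 1, by simp, by simp [h0]⟩
    obtain ⟨U, hU, hOU'⟩ := hOU S
    by_cases hw : h (e (c S) +ᵥ y₀) = w
    · refine ⟨h (e (c S) +ᵥ y₀) + η / 4, ?_, fun y hy => ?_⟩
      · rw [hw]
        intro h1
        linarith
      · have h1 := hUη U hU y₀ (hOU' hy₀) y (hOU' hy) (c S)
        rw [abs_sub_lt_iff] at *
        constructor <;> linarith [h1.1, h1.2]
    · refine ⟨h (e (c S) +ᵥ y₀), hw, fun y hy => ?_⟩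
      have h1 := hUη U hU y₀ (hOU' hy₀) y (hOU' hy) (c S)
      linarith
  choose v hvw hv using hval
  have hμ : ∀ S, ∃ μ : C(Y, ℝ), EqOn μ 0 (O S)ᶜ ∧ EqOn μ 1 (E S) ∧ ∀ y, μ y ∈ Icc (0 : ℝ) 1 :=
    fun S => exists_continuous_zero_one_of_isClosed (hO S).isClosed_compl (hE S)
      (disjoint_left.mpr fun y hy hy' => hy (hEO S hy'))
  choose μ hμ0 hμ1 hμI using hμ
  have hKc : ∀ a, IsClosed ((fun y => e a +ᵥ y) '' K) := fun a =>
    (hK.isCompact.image (continuous_const_vadd (e a))).isClosed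
  have hφ : ∀ a, ∃ φ : C(Y, ℝ), EqOn φ 0 (⋃ b ∈ {b | b ≠ a}, (fun y => e b +ᵥ y) '' K) ∧
      EqOn φ 1 ((fun y => e a +ᵥ y) '' K) ∧ ∀ y, φ y ∈ Icc (0 : ℝ) 1 := by
    intro a
    refine exists_continuous_zero_one_of_isClosed ?_ (hKc a) ?_
    · exact (Set.toFinite _).isClosed_biUnion fun b _ => hKc b
    · rw [disjoint_left]
      intro y hy hy'
      obtain ⟨b, hb, hy⟩ := mem_iUnion₂.mp hy
      exact disjoint_left.mp (he b a hb) hy hy'
  choose φ hφ0 hφ1 hφI using hφ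
  let θ : κ → Y → ℝ := fun S z => φ (c S) z * μ S (-e (c S) +ᵥ z)
  have hθc : ∀ S, Continuous (θ S) := fun S =>
    (φ (c S)).continuous.mul ((μ S).continuous.comp (continuous_const_vadd _))
  have hθ0 : ∀ S z, 0 ≤ θ S z := fun S z => mul_nonneg (hφI _ _).1 (hμI _ _).1
  have hθv : ∀ S z, θ S z * |v S - h z| ≤ θ S z * η := by
    intro S z
    by_cases h0 : -e (c S) +ᵥ z ∈ O S
    · have h1 := hv S _ h0
      rw [vadd_vadd, add_neg_cancel, zero_vadd] at h1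
      exact mul_le_mul_of_nonneg_left h1.le (hθ0 S z)
    · have h1 : θ S z = 0 := by
        simp only [θ]
        rw [hμ0 S h0]
        simp
      rw [h1, zero_mul, zero_mul]
  let Θ : Y → ℝ := fun z => ∑ S, θ S z
  have hΘc : Continuous Θ := continuous_finsetSum _ fun S _ => hθc S
  have hΘ0 : ∀ z, 0 ≤ Θ z := fun z => Finset.sum_nonneg fun S _ => hθ0 S z
  have hmax : ∀ z, 0 < max 1 (Θ z) := fun z => lt_max_of_lt_left one_pos
  let h' : C(Y, ℝ) := ⟨fun z => h z + (∑ S, θ S z * (v S - h z)) / max 1 (Θ z), by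
    refine h.continuous.add (Continuous.div ?_ (continuous_const.max hΘc) fun z => (hmax z).ne')
    exact continuous_finsetSum _ fun S _ => (hθc S).mul (continuous_const.sub h.continuous)⟩
  refine ⟨h', fun z => ?_, fun y hy => ?_⟩
  · have h1 : |∑ S, θ S z * (v S - h z)| ≤ Θ z * η := by
      refine (Finset.abs_sum_le_sum_abs _ _).trans ?_
      simp only [Θ, Finset.sum_mul]
      refine Finset.sum_le_sum fun S _ => ?_
      rw [abs_mul, abs_of_nonneg (hθ0 S z)]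
      exact hθv S z
    have h2 : h' z - h z = (∑ S, θ S z * (v S - h z)) / max 1 (Θ z) := by
      simp only [h', ContinuousMap.coe_mk]
      ring
    rw [h2, abs_div, abs_of_pos (hmax z), div_le_iff₀ (hmax z)]
    refine h1.trans ?_
    rw [mul_comm]
    exact mul_le_mul_of_nonneg_left (le_max_right _ _) hη.le
  · have hyc : y ∈ ⋃ S, E S := hEc ▸ mem_univ y
    obtain ⟨S₀, hS₀⟩ := mem_iUnion.mp hyc
    refine ⟨c S₀, ?_⟩
    have h1 : θ S₀ (e (c S₀) +ᵥ y) = 1 := by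
      simp only [θ]
      rw [hφ1 (c S₀) ⟨y, hy, rfl⟩, vadd_vadd, neg_add_cancel, zero_vadd, hμ1 S₀ hS₀]
      simp
    have h2 : ∀ S, S ≠ S₀ → θ S (e (c S₀) +ᵥ y) = 0 := by
      intro S hS
      simp only [θ]
      by_cases hc : c S = c S₀
      · rw [hc, vadd_vadd, neg_add_cancel, zero_vadd]
        have : y ∉ O S := fun h3 => disjoint_left.mp (hdisj S S₀ hS hc) h3 (hEO _ hS₀)
        rw [hμ0 S this]
        simp
      · have : (e (c S₀) +ᵥ y) ∈ ⋃ b ∈ {b | b ≠ c S}, (fun y => e b +ᵥ y) '' K :=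
          mem_iUnion₂.mpr ⟨c S₀, fun h3 => hc h3.symm, y, hy, rfl⟩
        rw [hφ0 (c S) this]
        simp
    have h3 : ∑ S, θ S (e (c S₀) +ᵥ y) * (v S - h (e (c S₀) +ᵥ y)) = v S₀ - h (e (c S₀) +ᵥ y) := by
      rw [Finset.sum_eq_single S₀]
      · rw [h1, one_mul]
      · intro S _ hS
        rw [h2 S hS, zero_mul]
      · simp
    have h4 : Θ (e (c S₀) +ᵥ y) = 1 := by
      simp only [Θ]
      rw [Finset.sum_eq_single S₀]
      · exact h1
      · intro S _ hS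
        exact h2 S hS
      · simp
    simp only [h', ContinuousMap.coe_mk]
    rw [h3, h4, max_self, div_one, add_sub_cancel]
    exact hvw S₀

/-- a closed neighbourhood whose translates are disjoint -/
lemma exists_nhd_disjoint {n : ℕ} (e : Fin n → G) (y : Y)
    (h : ∀ a b, a ≠ b → e a +ᵥ y ≠ e b +ᵥ y) :
    ∃ K ∈ nhds y, IsClosed K ∧
      ∀ a b, a ≠ b → Disjoint ((fun y => e a +ᵥ y) '' K) ((fun y => e b +ᵥ y) '' K) := by
  have h1 : ∀ a b, ∃ N ∈ nhds y, a ≠ b → ∀ z ∈ N, ∀ z' ∈ N, e a +ᵥ z ≠ e b +ᵥ z' := by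
    intro a b
    by_cases hab : a = b
    · exact ⟨univ, Filter.univ_mem, fun h => absurd hab h⟩
    obtain ⟨U, V, hU, hV, hyU, hyV, hUV⟩ := t2_separation (h a b hab)
    refine ⟨(fun z => e a +ᵥ z) ⁻¹' U ∩ (fun z => e b +ᵥ z) ⁻¹' V, ?_, ?_⟩
    · refine Filter.inter_mem ?_ ?_
      · exact (hU.preimage (continuous_const_vadd (e a))).mem_nhds hyU
      · exact (hV.preimage (continuous_const_vadd (e b))).mem_nhds hyV
    · intro _ z hz z' hz' heq
      have h3 : e b +ᵥ z' ∈ V := hz'.2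
      rw [← heq] at h3
      exact disjoint_left.mp hUV hz.1 h3
  choose N hN hN' using h1
  have h2 : (⋂ a, ⋂ b, N a b) ∈ nhds y :=
    Filter.iInter_mem.mpr fun a => Filter.iInter_mem.mpr fun b => hN a b
  obtain ⟨K, hK, hKc, hKN⟩ := exists_mem_nhds_isClosed_subset h2
  refine ⟨K, hK, hKc, fun a b hab => ?_⟩
  rw [disjoint_left]
  rintro _ ⟨z, hz, rfl⟩ ⟨z', hz', heq⟩
  exact hN' a b hab z (mem_iInter₂.mp (hKN hz) a b) z' (mem_iInter₂.mp (hKN hz') a b) heq.symm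

omit [T2Space Y] in
lemma isOpen_good {K : Set Y} (hK : IsClosed K) {n : ℕ} (e : Fin n → G) (w : ℝ) :
    IsOpen {h : C(Y, ℝ) | ∀ y ∈ K, ∃ a, h (e a +ᵥ y) ≠ w} := by
  let Φ : C(Y, ℝ) → C(Y, Fin n → ℝ) := fun h =>
    ⟨fun y a => h (e a +ᵥ y), continuous_pi fun a => h.continuous.comp (continuous_const_vadd _)⟩
  have hΦ : Continuous Φ := by
    refine ContinuousMap.continuous_of_continuous_uncurry _ ?_
    refine continuous_pi fun a => ?_
    exact continuous_eval.comp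
      (continuous_fst.prodMk ((continuous_const_vadd (e a)).comp continuous_snd))
  have hU : IsOpen {v : Fin n → ℝ | ∃ a, v a ≠ w} := by
    have : {v : Fin n → ℝ | ∃ a, v a ≠ w} = ⋃ a, {v | v a ≠ w} := by
      ext v
      simp
    rw [this]
    exact isOpen_iUnion fun a => isOpen_ne_fun (continuous_apply a) continuous_const
  exact (ContinuousMap.isOpen_setOfPred_mapsTo hK.isCompact hU).preimage hΦ

lemma dense_good {D : ℕ} (hD : CoveringDimLE Y D) {K : Set Y} (hK : IsClosed K)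
    (e : Fin (D + 1) → G)
    (he : ∀ a b, a ≠ b → Disjoint ((fun y => e a +ᵥ y) '' K) ((fun y => e b +ᵥ y) '' K)) (w : ℝ) :
    Dense {h : C(Y, ℝ) | ∀ y ∈ K, ∃ a, h (e a +ᵥ y) ≠ w} := by
  rw [Metric.dense_iff]
  intro h r hr
  obtain ⟨h', h1, h2⟩ := exists_perturb hD hK e he w h (half_pos hr)
  refine ⟨h', ?_, h2⟩
  rw [Metric.mem_ball]
  refine lt_of_le_of_lt ?_ (half_lt_self hr)
  rw [ContinuousMap.dist_le (half_pos hr).le]
  intro z
  rw [Real.dist_eq]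
  exact h1 z

/-- Near every continuous function `h` there is `h'` whose level set `{h' = w}` meets every orbit
segment, within the closed set `C` without short periods, in at most `D` points. -/
theorem exists_generic {D : ℕ} (hD : CoveringDimLE Y D) {C : Set Y} (hC : IsClosed C)
    (B : Finset G) (hB : ∀ y ∈ C, ∀ i ∈ B, ∀ j ∈ B, i ≠ j → (i - j) +ᵥ y ≠ y) (w : ℝ)
    (h : C(Y, ℝ)) {η : ℝ} (hη : 0 < η) :
    ∃ h' : C(Y, ℝ), (∀ z, |h' z - h z| < η) ∧
      ∀ y, ∀ I ⊆ B, (∀ i ∈ I, i +ᵥ y ∈ C ∧ h' (i +ᵥ y) = w) → I.card ≤ D := by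
  classical
  let 𝓔 : Set (Fin (D + 1) → G) := {e | Injective e ∧ ∀ a, e a ∈ B}
  have h𝓔 : 𝓔.Finite := by
    have : {e : Fin (D + 1) → G | ∀ a, e a ∈ (B : Set G)}.Finite :=
      Set.Finite.pi' fun _ => B.finite_toSet
    exact this.subset fun e he a => he.2 a
  have hcov : ∀ e ∈ 𝓔, ∃ 𝒦 : Set (Set Y), 𝒦.Finite ∧ (∀ K ∈ 𝒦, IsClosed K ∧
      ∀ a b, a ≠ b → Disjoint ((fun y => e a +ᵥ y) '' K) ((fun y => e b +ᵥ y) '' K)) ∧
      ∀ y, (∀ a, e a +ᵥ y ∈ C) → ∃ K ∈ 𝒦, y ∈ K := by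
    intro e he
    let Z : Set Y := {y | ∀ a, e a +ᵥ y ∈ C}
    have hZ : IsClosed Z := by
      have : Z = ⋂ a, (fun y => e a +ᵥ y) ⁻¹' C := by
        ext y
        simp [Z]
      rw [this]
      exact isClosed_iInter fun a => hC.preimage (continuous_const_vadd _)
    have hd : ∀ y : Y, ∃ K : Set Y, y ∈ Z → K ∈ nhds y ∧ IsClosed K ∧
        ∀ a b, a ≠ b → Disjoint ((fun y => e a +ᵥ y) '' K) ((fun y => e b +ᵥ y) '' K) := by
      intro y
      by_cases hy : y ∈ Z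
      · obtain ⟨K, hK1, hK2, hK3⟩ := exists_nhd_disjoint e y fun a b hab heq => by
          refine hB (e b +ᵥ y) (hy b) (e a) (he.2 a) (e b) (he.2 b) (fun h => hab (he.1 h)) ?_
          rw [vadd_vadd, sub_add_cancel]
          exact heq
        exact ⟨K, fun _ => ⟨hK1, hK2, hK3⟩⟩
      · exact ⟨univ, fun h => absurd h hy⟩
    choose K hK using hd
    obtain ⟨t, htZ, ht⟩ := hZ.isCompact.elim_nhds_subcover K fun y hy => (hK y hy).1
    refine ⟨K '' (t : Set Y), t.finite_toSet.image _, ?_, ?_⟩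
    · rintro _ ⟨y, hy, rfl⟩
      exact (hK y (htZ y hy)).2
    · intro y hy
      obtain ⟨y', hy', hyK⟩ := mem_iUnion₂.mp (ht (show y ∈ Z from hy))
      exact ⟨K y', ⟨y', hy', rfl⟩, hyK⟩
  choose! 𝒦 h𝒦 using hcov
  let 𝒮 : Set ((Fin (D + 1) → G) × Set Y) := {p | p.1 ∈ 𝓔 ∧ p.2 ∈ 𝒦 p.1}
  have h𝒮 : 𝒮.Finite := by
    have : 𝒮 ⊆ ⋃ e ∈ 𝓔, (fun K => (e, K)) '' 𝒦 e := by
      rintro ⟨e, K⟩ ⟨h1, h2⟩
      exact mem_iUnion₂.mpr ⟨e, h1, K, h2, rfl⟩
    exact (h𝓔.biUnion fun e he => (h𝒦 e he).1.image _).subset this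
  have hdense : Dense (⋂ p ∈ 𝒮, {h : C(Y, ℝ) | ∀ y ∈ p.2, ∃ a, h (p.1 a +ᵥ y) ≠ w}) := by
    refine dense_biInter_of_isOpen ?_ h𝒮.countable ?_
    · rintro ⟨e, K⟩ ⟨he, hK⟩
      exact isOpen_good ((h𝒦 e he).2.1 K hK).1 e w
    · rintro ⟨e, K⟩ ⟨he, hK⟩
      exact dense_good hD ((h𝒦 e he).2.1 K hK).1 e ((h𝒦 e he).2.1 K hK).2 w
  obtain ⟨h', hh', hdist⟩ := hdense.exists_dist_lt h hη
  refine ⟨h', fun z => ?_, ?_⟩
  · rw [← Real.dist_eq, dist_comm]
    exact (ContinuousMap.dist_apply_le_dist z).trans_lt hdist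
  · intro y I hI hIC
    by_contra hcard
    push Not at hcard
    obtain ⟨I', hI', hI'c⟩ := Finset.exists_subset_card_eq (show D + 1 ≤ I.card from hcard)
    let e : Fin (D + 1) → G := fun a => (I'.equivFin.symm (Fin.cast hI'c.symm a) : G)
    have heI : ∀ a, e a ∈ I' := fun a => (I'.equivFin.symm (Fin.cast hI'c.symm a)).2
    have he : e ∈ 𝓔 := by
      refine ⟨?_, fun a => hI (hI' (heI a))⟩
      intro a b hab
      have h1 := Subtype.val_injective hab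
      exact Fin.cast_injective _ (I'.equivFin.symm.injective h1)
    obtain ⟨K, hK, hyK⟩ := (h𝒦 e he).2.2 y fun a => (hIC _ (hI' (heI a))).1
    obtain ⟨a, ha⟩ := mem_iInter₂.mp hh' (e, K) ⟨he, hK⟩ y hyK
    exact ha (hIC _ (hI' (heI a))).2

end dense

end Pool.Agent.MMD
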