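import Pool.Agent.MMD.Ury

/-! # Low complexity -/

open Set Function

namespace Pool.Agent.MMD

universe u

variable {k : ℕ}

/-- For large `N`, the sequences `(F (n + x))` with `n` in the box of side `N` are within `r` of
`exp (c N^k)` sequences. -/
def LowCpx {X : Type u} [AddAction (Fin k → ℤ) X] (F : X → ℝ) (r c : ℝ) : Prop :=
  ∃ N₀ : ℕ, ∀ N ≥ N₀, ∃ 𝒯 : Finset ((Fin k → ℤ) → ℝ), Real.log 𝒯.card ≤ c * (N : ℝ) ^ k ∧
    ∀ x, ∃ t ∈ 𝒯, ∀ n ∈ box k N, |F (n +ᵥ x) - t n| < r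

lemma lowCpx_of_tile {X : Type u} [AddAction (Fin k → ℤ) X] {F : X → ℝ} {r c : ℝ} {L : ℕ}
    (hL : 0 < L) (hc : 0 ≤ c) {𝒯₀ : Finset ((Fin k → ℤ) → ℝ)}
    (hcard : Real.log 𝒯₀.card ≤ c * (L : ℝ) ^ k)
    (h : ∀ x, ∃ t ∈ 𝒯₀, ∀ n ∈ box k L, |F (n +ᵥ x) - t n| < r) :
    LowCpx (k := k) F r (2 ^ k * c) := by
  classical
  refine ⟨L, fun N hN => ?_⟩
  have hL' : (0 : ℤ) < L := by exact_mod_cast hL
  let m := N / L + 1
  let T : (box k m → 𝒯₀) → (Fin k → ℤ) → ℝ := fun c n =>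
    if hn : (fun i => n i / (L : ℤ)) ∈ box k m then (c ⟨_, hn⟩ : (Fin k → ℤ) → ℝ)
      (fun i => n i % (L : ℤ)) else 0
  refine ⟨Finset.univ.image T, ?_, fun x => ?_⟩
  · have hL2 : (0 : ℝ) < L := by exact_mod_cast hL
    rcases Nat.eq_zero_or_pos (Finset.univ.image T).card with h0 | h0
    · rw [h0]
      simp only [Nat.cast_zero, Real.log_zero]
      positivity
    have h1 : (Finset.univ.image T).card ≤ 𝒯₀.card ^ (m ^ k) := by
      refine Finset.card_image_le.trans ?_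
      rw [Finset.card_univ, Fintype.card_fun, Fintype.card_coe, Fintype.card_coe, card_box]
    have h2 : Real.log (Finset.univ.image T).card ≤ (m ^ k : ℕ) * Real.log 𝒯₀.card := by
      rw [← Real.log_pow]
      refine Real.log_le_log (by exact_mod_cast h0) ?_
      exact_mod_cast h1
    have h3 : (m : ℝ) ≤ 2 * (N / L) := by
      have h4 : ((N / L : ℕ) : ℝ) ≤ N / L := Nat.cast_div_le
      have h5 : (1 : ℝ) ≤ N / L := by
        rw [le_div_iff₀ hL2, one_mul]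
        exact_mod_cast hN
      simp only [m]
      push_cast
      linarith
    have hlog : 0 ≤ Real.log 𝒯₀.card := Real.log_natCast_nonneg _
    calc Real.log (Finset.univ.image T).card ≤ (m ^ k : ℕ) * Real.log 𝒯₀.card := h2
      _ ≤ (2 * (N / L)) ^ k * Real.log 𝒯₀.card := by
          refine mul_le_mul_of_nonneg_right ?_ hlog
          push_cast
          exact pow_le_pow_left₀ (by positivity) h3 k
      _ ≤ (2 * (N / L)) ^ k * (c * (L : ℝ) ^ k) :=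
          mul_le_mul_of_nonneg_left hcard (by positivity)
      _ = 2 ^ k * c * (N : ℝ) ^ k := by
          rw [mul_pow, div_pow]
          field_simp
  · have hex : ∀ c : box k m, ∃ t : 𝒯₀, ∀ n ∈ box k L,
        |F (n +ᵥ (((L : ℤ) • (c : Fin k → ℤ)) +ᵥ x)) - (t : (Fin k → ℤ) → ℝ) n| < r := by
      intro c
      obtain ⟨t, ht, ht'⟩ := h (((L : ℤ) • (c : Fin k → ℤ)) +ᵥ x)
      exact ⟨⟨t, ht⟩, ht'⟩
    choose c hc using hex
    refine ⟨T c, Finset.mem_image_of_mem _ (Finset.mem_univ _), fun n hn => ?_⟩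
    have h1 : (fun i => n i / (L : ℤ)) ∈ box k m := by
      rw [mem_box]
      intro i
      have h2 := mem_box.mp hn i
      refine ⟨Int.ediv_nonneg h2.1 hL'.le, ?_⟩
      simp only [m]
      push_cast
      rw [Int.lt_add_one_iff]
      exact Int.ediv_le_ediv hL' h2.2.le
    have h2 : (fun i => n i % (L : ℤ)) ∈ box k L := by
      rw [mem_box]
      intro i
      exact ⟨Int.emod_nonneg _ hL'.ne', Int.emod_lt_of_pos _ hL'⟩
    simp only [T, dif_pos h1]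
    have h3 := hc ⟨_, h1⟩ _ h2
    rw [vadd_vadd] at h3
    have h4 : (fun i => n i % (L : ℤ)) + (L : ℤ) • (fun i => n i / (L : ℤ)) = n := by
      funext i
      simp only [Pi.add_apply, Pi.smul_apply, smul_eq_mul]
      exact Int.emod_add_mul_ediv (n i) L
    rw [h4] at h3
    exact h3

lemma log_templates_le {k D Q R s : ℕ} {δ : ℝ} (hδ : 0 < δ) (hk : 1 ≤ k) (hQ : 2 ≤ Q) (hR : 1 ≤ R)
    (hQD : 16 * (D : ℝ) ≤ δ * Q) (hRk : 8 * (k : ℝ) ≤ δ * R)
    (hs : Real.log 6 + k * Real.log (2 * Q) + δ ≤ 5 / 8 * δ * s) :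
    Real.log (((2 ^ ((Q * R) ^ k) * (2 * 4 ^ s + 1) ^ (2 * D * R ^ k)) * 3 ^ ((Q * R) ^ k) *
        ((2 * Q) ^ k * (2 * 4 ^ s + 1) ^ (k * (Q * (Q * R) ^ (k - 1)))) : ℕ) : ℝ)
      ≤ δ * s * ((Q * R : ℕ) : ℝ) ^ k := by
  have hQ0 : (0 : ℝ) < Q := by exact_mod_cast (by omega : 0 < Q)
  have hR0 : (0 : ℝ) < R := by exact_mod_cast (by omega : 0 < R)
  have hG : (0 : ℝ) < 2 * 4 ^ s + 1 := by positivity
  set A : ℝ := ((Q * R : ℕ) : ℝ) ^ k with hA
  have hA1 : 1 ≤ A := by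
    rw [hA]
    refine one_le_pow₀ ?_
    exact_mod_cast Nat.mul_pos (by omega) (by omega)
  have hlogG : Real.log (2 * 4 ^ s + 1) ≤ 3 / 2 * (s + 1) := by
    have h1 : Real.log (2 * 4 ^ s + 1) ≤ Real.log (4 ^ (s + 1)) := by
      refine Real.log_le_log hG ?_
      have : (1 : ℝ) ≤ 4 ^ s := one_le_pow₀ (by norm_num)
      rw [pow_succ]
      linarith
    rw [Real.log_pow] at h1
    have h2 : Real.log 4 ≤ 3 / 2 := by
      rw [show (4 : ℝ) = 2 ^ 2 by norm_num, Real.log_pow]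
      have := Real.log_two_lt_d9
      push_cast
      linarith
    refine h1.trans ?_
    push_cast
    have : (0 : ℝ) ≤ s + 1 := by positivity
    nlinarith
  have hlogG0 : 0 ≤ Real.log (2 * 4 ^ s + 1) := by
    refine Real.log_nonneg ?_
    have : (0 : ℝ) ≤ 2 * 4 ^ s := by positivity
    linarith
  have e1 : ((2 * D * R ^ k : ℕ) : ℝ) ≤ δ / 8 * A := by
    have h1 : (Q : ℝ) ≤ (Q : ℝ) ^ k := le_self_pow₀ (by exact_mod_cast (by omega : 1 ≤ Q)) (by omega)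
    have h2 : 16 * (D : ℝ) ≤ δ * (Q : ℝ) ^ k := hQD.trans (mul_le_mul_of_nonneg_left h1 hδ.le)
    rw [hA]
    push_cast
    rw [mul_pow]
    have h3 : (0 : ℝ) < (R : ℝ) ^ k := by positivity
    nlinarith
  have e2 : ((k * (Q * (Q * R) ^ (k - 1)) : ℕ) : ℝ) ≤ δ / 8 * A := by
    have h1 : A = ((Q : ℝ) * R) ^ (k - 1) * (Q * R) := by
      rw [hA, ← pow_succ, Nat.sub_add_cancel hk]
      push_cast
      rfl
    rw [h1]
    push_cast
    have h3 : (0 : ℝ) < ((Q : ℝ) * R) ^ (k - 1) := by positivity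
    have h4 : (k : ℝ) * Q ≤ δ / 8 * (Q * R) := by nlinarith
    calc (k : ℝ) * (Q * (Q * R) ^ (k - 1)) = (k * Q) * ((Q : ℝ) * R) ^ (k - 1) := by ring
      _ ≤ (δ / 8 * (Q * R)) * ((Q : ℝ) * R) ^ (k - 1) := mul_le_mul_of_nonneg_right h4 h3.le
      _ = _ := by ring
  have e3 : Real.log (((2 ^ ((Q * R) ^ k) * (2 * 4 ^ s + 1) ^ (2 * D * R ^ k)) * 3 ^ ((Q * R) ^ k) *
        ((2 * Q) ^ k * (2 * 4 ^ s + 1) ^ (k * (Q * (Q * R) ^ (k - 1)))) : ℕ) : ℝ) =
      A * Real.log 6 + k * Real.log (2 * Q) +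
      (((2 * D * R ^ k : ℕ) : ℝ) + ((k * (Q * (Q * R) ^ (k - 1)) : ℕ) : ℝ)) *
        Real.log (2 * 4 ^ s + 1) := by
    have h6 : Real.log 6 = Real.log 2 + Real.log 3 := by
      rw [← Real.log_mul (by norm_num) (by norm_num)]
      norm_num
    rw [Nat.cast_mul, Nat.cast_mul, Nat.cast_mul, Nat.cast_mul]
    rw [Real.log_mul (by positivity) (by positivity), Real.log_mul (by positivity) (by positivity),
      Real.log_mul (by positivity) (by positivity), Real.log_mul (by positivity) (by positivity)]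
    rw [Nat.cast_pow, Nat.cast_pow, Nat.cast_pow, Nat.cast_pow, Nat.cast_pow, Real.log_pow,
      Real.log_pow, Real.log_pow, Real.log_pow, Real.log_pow, h6, hA]
    push_cast
    ring
  rw [e3]
  have hk0 : 0 ≤ (k : ℝ) * Real.log (2 * Q) := by
    refine mul_nonneg (Nat.cast_nonneg _) (Real.log_nonneg ?_)
    have : (2 : ℝ) ≤ Q := by exact_mod_cast hQ
    linarith
  have h7 : k * Real.log (2 * Q) ≤ A * (k * Real.log (2 * Q)) := by
    nlinarith
  have h8 : (((2 * D * R ^ k : ℕ) : ℝ) + ((k * (Q * (Q * R) ^ (k - 1)) : ℕ) : ℝ)) *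
        Real.log (2 * 4 ^ s + 1) ≤ (δ / 4 * A) * (3 / 2 * (s + 1)) :=
    mul_le_mul (by linarith) hlogG hlogG0 (by positivity)
  have hs0 : (0 : ℝ) ≤ s := Nat.cast_nonneg _
  calc _ ≤ A * Real.log 6 + A * (k * Real.log (2 * Q)) + (δ / 4 * A) * (3 / 2 * (s + 1)) := by
        linarith
    _ = A * (Real.log 6 + k * Real.log (2 * Q) + 3 / 8 * δ * (s + 1)) := by ring
    _ ≤ A * (δ * s) := by
        refine mul_le_mul_of_nonneg_left ?_ (by linarith)
        nlinarith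
    _ = δ * s * A := by ring

/-- Low complexity Urysohn functions. -/
theorem exists_low (hk : 1 ≤ k) (D : ℕ) {δ : ℝ} (hδ : 0 < δ) : ∃ s₀ : ℕ, ∀ s ≥ s₀,
    ∀ {Y : Type u} [TopologicalSpace Y] [CompactSpace Y] [T2Space Y] [AddAction (Fin k → ℤ) Y]
      [ContinuousConstVAdd (Fin k → ℤ) Y], CoveringDimLE Y D → ∀ {A₀ A₁ : Set Y}, IsClosed A₀ →
      IsClosed A₁ → Disjoint A₀ A₁ →
    ∃ F : C(Y, ℝ), (∀ y, F y ∈ Icc (0 : ℝ) 1) ∧ (∀ y ∈ A₀, F y = 0) ∧ (∀ y ∈ A₁, F y = 1) ∧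
      LowCpx (k := k) F ((1 / 4) ^ s / 2) (δ * s) := by
  set δ' : ℝ := δ / 2 ^ k with hδ'
  have hδ'0 : 0 < δ' := by positivity
  obtain ⟨Q₀, hQ₀⟩ := exists_nat_ge (16 * (D : ℝ) / δ')
  obtain ⟨R₀, hR₀⟩ := exists_nat_ge (8 * (k : ℝ) / δ')
  let Q := max 2 Q₀
  let R := max 1 R₀
  have hQ : 16 * (D : ℝ) ≤ δ' * Q := by
    rw [div_le_iff₀ hδ'0] at hQ₀
    have : (Q₀ : ℝ) ≤ Q := by exact_mod_cast le_max_right _ _
    nlinarith
  have hR : 8 * (k : ℝ) ≤ δ' * R := by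
    rw [div_le_iff₀ hδ'0] at hR₀
    have : (R₀ : ℝ) ≤ R := by exact_mod_cast le_max_right _ _
    nlinarith
  obtain ⟨s₀, hs₀⟩ := exists_nat_ge ((Real.log 6 + k * Real.log (2 * Q) + δ') / (5 / 8 * δ'))
  refine ⟨s₀, fun s hs Y _ _ _ _ _ hD A₀ A₁ hA₀ hA₁ hA => ?_⟩
  have hs' : Real.log 6 + k * Real.log (2 * Q) + δ' ≤ 5 / 8 * δ' * s := by
    rw [div_le_iff₀ (by positivity)] at hs₀
    have : (s₀ : ℝ) ≤ s := by exact_mod_cast hs
    nlinarith
  obtain ⟨F, hF1, hF2, hF3, hF4⟩ := exists_urysohn (k := k) hk hD (Q := Q) (R := R) (K := 4 ^ s)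
    (le_max_left _ _) (Nat.one_le_pow _ _ (by norm_num)) hA₀ hA₁ hA
  obtain ⟨𝒯, h𝒯1, h𝒯2⟩ := exists_templates k (Q * R) (2 * D * R ^ k) (4 ^ s) Q (by positivity)
  refine ⟨F, hF1, hF2, hF3, ?_⟩
  have hr : (1 : ℝ) / (2 * ((4 ^ s : ℕ) : ℝ)) = (1 / 4) ^ s / 2 := by
    push_cast
    rw [one_div_pow]
    field_simp
  have key : LowCpx (k := k) F ((1 / 4) ^ s / 2) (2 ^ k * (δ' * s)) := by
    refine lowCpx_of_tile (L := Q * R) (𝒯₀ := 𝒯) ?_ (by positivity) ?_ ?_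
    · exact Nat.mul_pos (lt_of_lt_of_le (by norm_num) (le_max_left _ _))
        (lt_of_lt_of_le (by norm_num) (le_max_left _ _))
    · rcases Nat.eq_zero_or_pos 𝒯.card with h0 | h0
      · rw [h0]
        simp only [Nat.cast_zero, Real.log_zero]
        positivity
      · refine le_trans (Real.log_le_log (by exact_mod_cast h0) ?_)
          (log_templates_le (D := D) hδ'0 hk (le_max_left _ _) (le_max_left _ _) hQ hR hs')
        exact_mod_cast h𝒯1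
    · intro x
      obtain ⟨S, hS1, hS2, v, hv, u, hu1, hu2, hout⟩ := hF4 x
      obtain ⟨t, ht, ht'⟩ := h𝒯2 (fun n => F (n +ᵥ x)) S hS1 hS2 (fun n _ => hF1 _) v hv u hu1 hu2 hout
      refine ⟨t, ht, fun n hn => ?_⟩
      rw [← hr]
      exact ht' n hn
  have : 2 ^ k * (δ' * (s : ℝ)) = δ * s := by
    rw [hδ']
    field_simp
  rwa [this] at key

end Pool.Agent.MMD
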