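import Pool.Agent.MMD.Zero

/-! # The mean dimension is zero -/

open Set Function Filter Topology

namespace Pool.Agent.MMD

universe u

lemma exists_partition {k : ℕ} {Y : Type u} [TopologicalSpace Y] [CompactSpace Y] [T2Space Y]
    [AddAction (Fin k → ℤ) Y] [ContinuousConstVAdd (Fin k → ℤ) Y] {D : ℕ} (hD : CoveringDimLE Y D)
    {A B : Set Y} (hA : IsClosed A) (hB : IsClosed B) (hAB : Disjoint A B) (N : ℕ) :
    ∃ (κ : Type u) (_ : Fintype κ) (g : κ → C(Y, ℝ)), (∀ i y, 0 ≤ g i y) ∧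
      (∀ y, ∑ i, g i y = 1) ∧
      (∀ y, (Finset.univ.filter fun i => g i y ≠ 0).card ≤ D + 1) ∧
      ∀ i y z, g i y ≠ 0 → g i z ≠ 0 → ∀ n ∈ box k N, ¬ (n +ᵥ y ∈ A ∧ n +ᵥ z ∈ B) := by
  classical
  let C : Bool → Set Y := fun b => bif b then Aᶜ else Bᶜ
  have hC : ∀ b, IsOpen (C b) := by
    rintro (_ | _)
    · exact hB.isOpen_compl
    · exact hA.isOpen_compl
  let O : (box k N → Bool) → Set Y := fun w =>
    ⋂ n : box k N, (fun y => (n : Fin k → ℤ) +ᵥ y) ⁻¹' C (w n)
  have hO : ∀ w, IsOpen (O w) := fun w =>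
    isOpen_iInter_of_finite fun n => (hC _).preimage (continuous_const_vadd _)
  have hcov : ⋃₀ range O = univ := by
    refine eq_univ_of_forall fun y => ?_
    refine ⟨O (fun n => decide ((n : Fin k → ℤ) +ᵥ y ∉ A)), ⟨_, rfl⟩, ?_⟩
    simp only [O, mem_iInter, mem_preimage]
    intro n
    by_cases h : (n : Fin k → ℤ) +ᵥ y ∈ A
    · have h2 : (n : Fin k → ℤ) +ᵥ y ∉ B := fun h' => hAB.le_bot ⟨h, h'⟩
      simp [C, h, h2]
    · simp [C, h]
  obtain ⟨𝒱, h𝒱, hVo, hVc, hVU, hVD⟩ := hD (range O) (finite_range O)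
    (by rintro _ ⟨w, rfl⟩; exact hO w) hcov
  have : Fintype 𝒱 := h𝒱.fintype
  obtain ⟨f, hf⟩ := PartitionOfUnity.exists_isSubordinate (s := (univ : Set Y)) isClosed_univ
    (fun V : 𝒱 => (V : Set Y)) (fun V => hVo V V.2) (by rw [← sUnion_eq_iUnion, hVc])
  have hfV : ∀ (V : 𝒱) (y : Y), f V y ≠ 0 → y ∈ (V : Set Y) := fun V y h =>
    hf V (subset_tsupport _ (by simpa using h))
  refine ⟨𝒱, this, fun V => f V, fun V y => f.nonneg V y, fun y => ?_, fun y => ?_, ?_⟩
  · rw [← finsum_eq_sum_of_fintype]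
    exact f.sum_eq_one (mem_univ y)
  · refine le_trans ?_ (hVD y)
    rw [← Finset.card_map ⟨Subtype.val, Subtype.val_injective⟩, ← Set.ncard_coe_finset]
    refine Set.ncard_le_ncard ?_ (h𝒱.subset fun V hV => hV.1)
    intro V hV
    simp only [Finset.coe_map, Embedding.coeFn_mk, mem_image, Finset.mem_coe] at hV
    obtain ⟨V', hV', rfl⟩ := hV
    refine ⟨V'.2, hfV V' y ?_⟩
    simpa using hV'
  · rintro V y z hy hz n hn ⟨hyA, hzB⟩
    obtain ⟨_, ⟨w, rfl⟩, hw⟩ := hVU V V.2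
    have h1 := hw (hfV V y hy)
    have h2 := hw (hfV V z hz)
    simp only [O, mem_iInter, mem_preimage] at h1 h2
    have h3 := h1 ⟨n, hn⟩
    have h4 := h2 ⟨n, hn⟩
    cases hb : w ⟨n, hn⟩
    · rw [hb] at h4
      exact h4 hzB
    · rw [hb] at h3
      exact h3 hyA

section

variable {k : ℕ} {X : Type u} [TopologicalSpace X] [AddAction (Fin k → ℤ) X]

lemma widim_le {d : X → X → ℝ} {N m : ℕ} {ε r : ℝ} (hr : r < ε) {W : Type*} [Fintype W]
    (f : X → W → ℝ) (hf : Continuous f) (h0 : ∀ x w, 0 ≤ f x w) (h1 : ∀ x, ∑ w, f x w = 1)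
    (hc : ∀ x, (Finset.univ.filter fun w => f x w ≠ 0).card ≤ m + 1)
    (hfib : ∀ x y, f x = f y → ∀ n ∈ box k N, d (n +ᵥ x) (n +ᵥ y) ≤ r) :
    widim k d N ε ≤ m := by
  classical
  let e := Fintype.equivFin W
  refine Nat.sInf_le ⟨Fintype.card W, {s | s.card ≤ m + 1}, fun x i => f x (e.symm i),
    fun s hs => hs, fun s hs t ht => (Finset.card_le_card ht).trans hs, ?_, ?_, ?_⟩
  · exact continuous_pi fun i => (continuous_apply _).comp hf
  · intro x
    refine ⟨fun v => h0 x _, ?_, ?_⟩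
    · rw [← h1 x]
      exact Equiv.sum_comp e.symm (f x)
    · refine ⟨Finset.univ.filter fun v => f x (e.symm v) ≠ 0, ?_, fun v hv => by simpa using hv⟩
      refine le_trans (le_of_eq ?_) (hc x)
      refine Finset.card_bij (fun v _ => e.symm v) ?_ ?_ ?_
      · intro v hv
        simpa using hv
      · intro v _ v' _ h
        exact e.symm.injective h
      · intro w hw
        exact ⟨e w, by simpa using hw, by simp⟩
  · intro p
    refine ⟨r, hr, fun x hx y hy n hn => hfib x y ?_ n hn⟩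
    have h2 : ∀ i, f x (e.symm i) = f y (e.symm i) := fun i =>
      congrFun ((show _ = p from hx).trans (show _ = p from hy).symm) i
    funext w
    simpa using h2 (e w)

end

section

variable {k : ℕ} {ι : Type u} {Y : ι → Type u} [∀ j, TopologicalSpace (Y j)]
  [∀ j, CompactSpace (Y j)] [∀ j, T2Space (Y j)] [∀ j, AddAction (Fin k → ℤ) (Y j)]
  [∀ j, ContinuousConstVAdd (Fin k → ℤ) (Y j)] {X : Type u} [TopologicalSpace X] [CompactSpace X]
  [AddAction (Fin k → ℤ) X]

theorem widim_bound {d : X → X → ℝ} (hd : IsCompatibleMetric d)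
    (hY : ∀ j, ∃ D, CoveringDimLE (Y j) D) (π : ∀ j, X → Y j) (hπ : ∀ j, Continuous (π j))
    (heq : ∀ j (n : Fin k → ℤ) x, π j (n +ᵥ x) = n +ᵥ π j x)
    (hsep : ∀ x y, (∀ j, π j x = π j y) → x = y) {ε : ℝ} (hε : 0 < ε) :
    ∃ C : ℕ, ∀ N, widim k d N ε ≤ C := by
  classical
  obtain ⟨m, j, U, V, hUV, hcov⟩ := exists_finite_sep hd π hπ hsep (half_pos hε)
  choose D hD using hY
  refine ⟨∏ l, (D (j l) + 1), fun N => ?_⟩
  have h1 := fun l =>
    exists_partition (k := k) (hD (j l)) isClosed_closure isClosed_closure (hUV l) N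
  choose κ inst g g0 g1 g2 g3 using h1
  have hsum : ∀ x, ∑ w : ∀ l, κ l, ∏ l, g l (w l) (π (j l) x) = 1 := by
    intro x
    have h2 := Finset.prod_univ_sum (fun l => (Finset.univ : Finset (κ l)))
      (fun l i => g l i (π (j l) x))
    rw [Fintype.piFinset_univ] at h2
    rw [← h2]
    exact Finset.prod_eq_one fun l _ => g1 l _
  refine widim_le (r := ε / 2) (by linarith) (W := ∀ l, κ l)
    (fun x w => ∏ l, g l (w l) (π (j l) x)) ?_ ?_ hsum ?_ ?_
  · exact continuous_pi fun w => continuous_finsetProd _ fun l _ =>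
      (g l (w l)).continuous.comp (hπ _)
  · exact fun x w => Finset.prod_nonneg fun l _ => g0 l _ _
  · intro x
    have h2 : (Finset.univ.filter fun w : ∀ l, κ l => ∏ l, g l (w l) (π (j l) x) ≠ 0) ⊆
        Fintype.piFinset fun l => Finset.univ.filter fun i => g l i (π (j l) x) ≠ 0 := by
      intro w hw
      rw [Fintype.mem_piFinset]
      intro l
      rw [Finset.mem_filter] at hw ⊢
      exact ⟨Finset.mem_univ _, fun h => hw.2 (Finset.prod_eq_zero (Finset.mem_univ l) h)⟩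
    refine (Finset.card_le_card h2).trans ?_
    rw [Fintype.card_piFinset]
    exact (Finset.prod_le_prod' fun l _ => g2 l _).trans (Nat.le_succ _)
  · intro x y hxy n hn
    by_contra hlt
    push Not at hlt
    obtain ⟨l, hx, hy⟩ := hcov _ _ hlt.le
    obtain ⟨w, hw⟩ : ∃ w : ∀ l, κ l, ∏ l, g l (w l) (π (j l) x) ≠ 0 := by
      by_contra h
      push Not at h
      have h2 := hsum x
      simp [h] at h2
    have hw' : ∏ l, g l (w l) (π (j l) y) ≠ 0 := by
      have h2 : ∏ l, g l (w l) (π (j l) x) = ∏ l, g l (w l) (π (j l) y) := congrFun hxy w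
      rwa [h2] at hw
    have h3 := Finset.prod_ne_zero_iff.mp hw l (Finset.mem_univ l)
    have h4 := Finset.prod_ne_zero_iff.mp hw' l (Finset.mem_univ l)
    refine g3 l _ _ _ h3 h4 n hn ⟨?_, ?_⟩
    · rw [← heq]
      exact subset_closure hx
    · rw [← heq]
      exact subset_closure hy

theorem mdim_eq_zero (hk : 1 ≤ k) {d : X → X → ℝ} (hd : IsCompatibleMetric d)
    (hY : ∀ j, ∃ D, CoveringDimLE (Y j) D) (π : ∀ j, X → Y j) (hπ : ∀ j, Continuous (π j))
    (heq : ∀ j (n : Fin k → ℤ) x, π j (n +ᵥ x) = n +ᵥ π j x)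
    (hsep : ∀ x y, (∀ j, π j x = π j y) → x = y) : mdim k d = 0 := by
  have h1 : ∀ ε > (0 : ℝ), limsup (fun N : ℕ => ((widim k d N ε / (N : ℝ) ^ k : ℝ) : EReal))
      atTop = 0 := by
    intro ε hε
    obtain ⟨C, hC⟩ := widim_bound hd hY π hπ heq hsep hε
    have h2 : Tendsto (fun N : ℕ => (widim k d N ε / (N : ℝ) ^ k : ℝ)) atTop (𝓝 0) := by
      refine squeeze_zero (g := fun N : ℕ => (C : ℝ) / (N : ℝ) ^ k) (fun N => by positivity)
        (fun N => ?_) ?_
      · have h3 : (widim k d N ε : ℝ) ≤ C := by exact_mod_cast hC N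
        gcongr
      · exact tendsto_const_nhds.div_atTop
          ((tendsto_pow_atTop (by omega)).comp tendsto_natCast_atTop_atTop)
    exact ((continuous_coe_real_ereal.tendsto 0).comp h2).limsup_eq
  unfold mdim
  have h2 : (fun ε : ℝ => limsup (fun N : ℕ => ((widim k d N ε / (N : ℝ) ^ k : ℝ) : EReal)) atTop)
      =ᶠ[𝓝[>] 0] fun _ => (0 : EReal) := by
    filter_upwards [self_mem_nhdsWithin] with ε hε
    exact h1 ε hε
  rw [limsup_congr h2, limsup_const]

end

end Pool.Agent.MMD
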