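import Pool.Agent.MMD.Stage

/-! # A compatible metric with vanishing metric mean dimension -/

open Set Function Filter Topology

namespace Pool.Agent.MMD

universe u

lemma exists_seq_step {α : Type*} (P : ℕ → α → Prop) (R : ℕ → α → α → Prop)
    (h0 : ∃ a, P 0 a) (hs : ∀ n a, P n a → ∃ b, P (n + 1) b ∧ R n a b) :
    ∃ f : ℕ → α, (∀ n, P n (f n)) ∧ ∀ n, R n (f n) (f (n + 1)) := by
  obtain ⟨a, ha⟩ := h0
  have : Nonempty α := ⟨a⟩
  choose! g hg using hs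
  let f : ℕ → α := fun n => Nat.rec a (fun n b => g n b) n
  have hf : ∀ n, P n (f n) := fun n => by
    induction n with
    | zero => exact ha
    | succ n ih => exact (hg n _ ih).1
  exact ⟨f, hf, fun n => (hg n _ (hf n)).2⟩

lemma exists_near {X : Type u} [TopologicalSpace X] [CompactSpace X] {d : X → X → ℝ}
    (hd : IsCompatibleMetric d) {ρ : X → X → ℝ} (hρ : Continuous fun p : X × X => ρ p.1 p.2)
    (h0 : ∀ x, ρ x x = 0) {c : ℝ} (hc : 0 < c) : ∃ η > 0, ∀ x y, d x y < η → ρ x y < c := by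
  let _ := hd.metricSpace
  have hu : UniformContinuous (fun p : X × X => ρ p.1 p.2) :=
    CompactSpace.uniformContinuous_of_continuous hρ
  obtain ⟨η, hη, h⟩ := Metric.uniformContinuous_iff.mp hu c hc
  refine ⟨η, hη, fun x y hxy => ?_⟩
  have h1 : dist (x, y) (x, x) < η := by
    rw [Prod.dist_eq, max_lt_iff]
    exact ⟨by simpa using hη, by rw [dist_comm]; exact hxy⟩
  have h2 := h h1
  simp only [h0, Real.dist_eq, sub_zero] at h2
  exact (le_abs_self _).trans_lt h2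

/-- A sequence of pseudometrics of low complexity -/
structure Tower (k : ℕ) {X : Type u} [TopologicalSpace X] [AddAction (Fin k → ℤ) X]
    (d : X → X → ℝ) (ε : ℕ → ℝ) (s : ℕ → ℕ) (ρ : ℕ → X → X → ℝ) : Prop where
  stage : ∀ j : ℕ, Stage k d (ε j) (1 / ((j : ℝ) + 1)) (s j) (ρ j)
  pos : ∀ j, 0 < ε j
  le : ∀ j : ℕ, ε j ≤ 1 / ((j : ℝ) + 1)
  two_le : ∀ j, 2 ≤ s j
  near : ∀ j x y, d x y < 3 * ε (j + 1) → ρ j x y < (1 / 4) ^ s j

variable {k : ℕ} {X : Type u} [TopologicalSpace X] [AddAction (Fin k → ℤ) X]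

theorem exists_tower [CompactSpace X] {d : X → X → ℝ} (hd : IsCompatibleMetric d)
    (hst : ∀ ε > 0, ∀ δ > 0, ∃ s₀ : ℕ, ∀ s ≥ s₀, ∃ ρ, Stage k d ε δ s ρ) :
    ∃ ε s ρ, Tower k d ε s ρ := by
  have h := exists_seq_step (α := ℝ × ℕ × (X → X → ℝ))
    (fun j a => Stage k d a.1 (1 / ((j : ℝ) + 1)) a.2.1 a.2.2 ∧ 0 < a.1 ∧
      a.1 ≤ 1 / ((j : ℝ) + 1) ∧ 2 ≤ a.2.1)
    (fun j a b => ∀ x y, d x y < 3 * b.1 → a.2.2 x y < (1 / 4) ^ a.2.1) ?_ ?_
  · obtain ⟨f, hf1, hf2⟩ := h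
    exact ⟨fun j => (f j).1, fun j => (f j).2.1, fun j => (f j).2.2, fun j => (hf1 j).1,
      fun j => (hf1 j).2.1, fun j => (hf1 j).2.2.1, fun j => (hf1 j).2.2.2, hf2⟩
  · obtain ⟨s₀, hs₀⟩ := hst 1 one_pos 1 one_pos
    obtain ⟨ρ, hρ⟩ := hs₀ (max s₀ 2) (le_max_left _ _)
    refine ⟨⟨1, max s₀ 2, ρ⟩, ?_, one_pos, by simp, le_max_right _ _⟩
    simpa using hρ
  · rintro j ⟨ε, s, ρ⟩ ⟨h1, h2, h3, h4⟩
    obtain ⟨η, hη, hη'⟩ := exists_near hd h1.cont h1.self (c := (1 / 4) ^ s) (by positivity)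
    have hj : (0 : ℝ) < 1 / (((j + 1 : ℕ) : ℝ) + 1) := by positivity
    have hε' : 0 < min (η / 3) (1 / (((j + 1 : ℕ) : ℝ) + 1)) := lt_min (by positivity) hj
    obtain ⟨s₀, hs₀⟩ := hst _ hε' _ hj
    obtain ⟨ρ', hρ'⟩ := hs₀ (max s₀ 2) (le_max_left _ _)
    refine ⟨⟨min (η / 3) (1 / (((j + 1 : ℕ) : ℝ) + 1)), max s₀ 2, ρ'⟩,
      ⟨hρ', hε', min_le_right _ _, le_max_right _ _⟩, fun x y hxy => hη' x y ?_⟩
    have h5 : min (η / 3) (1 / (((j + 1 : ℕ) : ℝ) + 1)) ≤ η / 3 := min_le_left _ _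
    simp only at hxy
    linarith

section frink

/-- the scales -/
noncomputable def ee (s : ℕ → ℕ) (j : ℕ) : ℝ := (1 / 2) ^ ∑ i ∈ Finset.range j, s i

lemma ee_pos (s : ℕ → ℕ) (j : ℕ) : 0 < ee s j := by
  unfold ee
  positivity

lemma ee_succ (s : ℕ → ℕ) (j : ℕ) : ee s (j + 1) = ee s j * (1 / 2) ^ s j := by
  unfold ee
  rw [Finset.sum_range_succ, pow_add]

lemma ee_anti (s : ℕ → ℕ) : Antitone (ee s) := by
  refine antitone_nat_of_succ_le fun j => ?_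
  rw [ee_succ]
  exact mul_le_of_le_one_right (ee_pos s j).le (pow_le_one₀ (by norm_num) (by norm_num))

open Classical in
/-- the prenorm, in terms of the sequence of the distances -/
noncomputable def preAux (s : ℕ → ℕ) (a : ℕ → ℝ) : ℝ :=
  if h : ∃ j, (1 / 4 : ℝ) ^ s j ≤ a j then ee s (Nat.find h) * √(a (Nat.find h)) else 0

/-- the prenorm -/
noncomputable def pre (s : ℕ → ℕ) {X : Type u} (ρ : ℕ → X → X → ℝ) (x y : X) : ℝ :=
  preAux s fun j => ρ j x y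

omit [TopologicalSpace X] in
lemma pre_cases (s : ℕ → ℕ) (ρ : ℕ → X → X → ℝ) (x y : X) :
    ((∀ j, ρ j x y < (1 / 4 : ℝ) ^ s j) ∧ pre s ρ x y = 0) ∨
    ∃ j, (1 / 4 : ℝ) ^ s j ≤ ρ j x y ∧ (∀ i < j, ρ i x y < (1 / 4 : ℝ) ^ s i) ∧
      pre s ρ x y = ee s j * √(ρ j x y) := by
  classical
  unfold pre preAux
  by_cases h : ∃ j, (1 / 4 : ℝ) ^ s j ≤ ρ j x y
  · right
    rw [dif_pos h]
    exact ⟨Nat.find h, Nat.find_spec h, fun i hi => not_le.mp (Nat.find_min h hi), rfl⟩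
  · left
    rw [dif_neg h]
    push Not at h
    exact ⟨h, rfl⟩

omit [TopologicalSpace X] in
lemma pre_nonneg (s : ℕ → ℕ) (ρ : ℕ → X → X → ℝ) (x y : X) : 0 ≤ pre s ρ x y := by
  rcases pre_cases s ρ x y with ⟨-, h⟩ | ⟨j, -, -, h⟩
  · exact h.ge
  · rw [h]
    exact mul_nonneg (ee_pos s j).le (Real.sqrt_nonneg _)

lemma sqrt_quarter (n : ℕ) : √((1 / 4 : ℝ) ^ n) = (1 / 2) ^ n := by
  have h : (1 / 4 : ℝ) ^ n = ((1 / 2) ^ n) ^ 2 := by
    rw [← pow_mul, mul_comm, pow_mul]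
    norm_num
  rw [h]
  exact Real.sqrt_sq (by positivity)

variable {d : X → X → ℝ} {ε : ℕ → ℝ} {s : ℕ → ℕ} {ρ : ℕ → X → X → ℝ}

lemma Tower.pre_symm (h : Tower k d ε s ρ) (x y : X) : pre s ρ x y = pre s ρ y x := by
  have h1 : (fun j => ρ j x y) = fun j => ρ j y x := funext fun j => (h.stage j).symm x y
  unfold pre
  rw [h1]

lemma Tower.pre_self (h : Tower k d ε s ρ) (x : X) : pre s ρ x x = 0 := by
  rcases pre_cases s ρ x x with ⟨-, h1⟩ | ⟨j, h1, -, -⟩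
  · exact h1
  · rw [(h.stage j).self] at h1
    have h2 : (0 : ℝ) < (1 / 4) ^ s j := by positivity
    linarith

lemma Tower.le_pre (h : Tower k d ε s ρ) {x y : X} {j : ℕ} (hj : (1 / 4) ^ s j ≤ ρ j x y) :
    ee s j * √(ρ j x y) ≤ pre s ρ x y := by
  rcases pre_cases s ρ x y with ⟨h1, -⟩ | ⟨i, h1, h2, h3⟩
  · exact absurd hj (not_le.mpr (h1 j))
  rcases lt_trichotomy i j with h4 | rfl | h4
  · rw [h3]
    have h5 : √(ρ j x y) ≤ 1 := by
      rw [Real.sqrt_le_left zero_le_one, one_pow]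
      exact (h.stage j).le_one x y
    have h6 : (1 / 2 : ℝ) ^ s i ≤ √(ρ i x y) := by
      rw [← sqrt_quarter]
      exact Real.sqrt_le_sqrt h1
    calc ee s j * √(ρ j x y) ≤ ee s j * 1 := mul_le_mul_of_nonneg_left h5 (ee_pos s j).le
      _ ≤ ee s (i + 1) := by
        rw [mul_one]
        exact ee_anti s h4
      _ = ee s i * (1 / 2) ^ s i := ee_succ s i
      _ ≤ _ := mul_le_mul_of_nonneg_left h6 (ee_pos s i).le
  · exact h3.ge
  · exact absurd hj (not_le.mpr (h2 j h4))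

lemma Tower.succ_le_pre (h : Tower k d ε s ρ) {x y : X} {j : ℕ} (hj : (1 / 4) ^ s j ≤ ρ j x y) :
    ee s (j + 1) ≤ pre s ρ x y := by
  refine le_trans ?_ (h.le_pre hj)
  rw [ee_succ, ← sqrt_quarter]
  exact mul_le_mul_of_nonneg_left (Real.sqrt_le_sqrt hj) (ee_pos s j).le

lemma Tower.near_of_near (h : Tower k d ε s ρ) {x y : X} {j : ℕ}
    (hj : ρ (j + 1) x y < (1 / 4) ^ s (j + 1)) : ρ j x y < (1 / 4) ^ s j := by
  refine h.near j x y ?_
  have h1 : d x y < ε (j + 1) := (h.stage (j + 1)).small x y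
    (hj.trans_le (pow_le_one₀ (by norm_num) (by norm_num)))
  have h2 := h.pos (j + 1)
  linarith

lemma Tower.near_of_le (h : Tower k d ε s ρ) {x y : X} {i j : ℕ} (hij : i ≤ j)
    (hj : ρ j x y < (1 / 4) ^ s j) : ρ i x y < (1 / 4) ^ s i := by
  induction j, hij using Nat.le_induction with
  | base => exact hj
  | succ j _ ih => exact ih (h.near_of_near hj)

lemma Tower.pre_le (h : Tower k d ε s ρ) {x y : X} {j : ℕ} (hj : ρ j x y < (1 / 4) ^ s j) :
    pre s ρ x y ≤ ee s (j + 1) := by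
  rcases pre_cases s ρ x y with ⟨-, h1⟩ | ⟨i, h1, -, h3⟩
  · rw [h1]
    exact (ee_pos s _).le
  · have h4 : j + 1 ≤ i := by
      by_contra hi
      exact absurd h1 (not_le.mpr (h.near_of_le (by omega) hj))
    rw [h3]
    have h5 : √(ρ i x y) ≤ 1 := by
      rw [Real.sqrt_le_left zero_le_one, one_pow]
      exact (h.stage i).le_one x y
    calc ee s i * √(ρ i x y) ≤ ee s i * 1 := mul_le_mul_of_nonneg_left h5 (ee_pos s i).le
      _ ≤ _ := by
        rw [mul_one]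
        exact ee_anti s h4

lemma Tower.near_of_pre (h : Tower k d ε s ρ) {x y : X} {j : ℕ}
    (hj : pre s ρ x y < ee s (j + 1)) : ρ j x y < (1 / 4) ^ s j := by
  by_contra h1
  exact absurd (h.succ_le_pre (not_lt.mp h1)) (not_le.mpr hj)

lemma Tower.quasi (h : Tower k d ε s ρ) (hd : ∀ x y z, d x z ≤ d x y + d y z) (x₁ x₂ x₃ x₄ : X) :
    pre s ρ x₁ x₄ ≤
      2 * max (pre s ρ x₁ x₂) (max (pre s ρ x₂ x₃) (pre s ρ x₃ x₄)) := by
  set M := max (pre s ρ x₁ x₂) (max (pre s ρ x₂ x₃) (pre s ρ x₃ x₄)) with hM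
  have hM1 : pre s ρ x₁ x₂ ≤ M := le_max_left _ _
  have hM2 : pre s ρ x₂ x₃ ≤ M := (le_max_left _ _).trans (le_max_right _ _)
  have hM3 : pre s ρ x₃ x₄ ≤ M := (le_max_right _ _).trans (le_max_right _ _)
  have hM0 : 0 ≤ M := (pre_nonneg s ρ _ _).trans hM1
  rcases pre_cases s ρ x₁ x₄ with ⟨-, h1⟩ | ⟨j, h1, -, h3⟩
  · rw [h1]
    positivity
  have hst := h.stage j
  have htri : ρ j x₁ x₄ ≤ ρ j x₁ x₂ + ρ j x₂ x₃ + ρ j x₃ x₄ :=
    (hst.triangle x₁ x₂ x₄).trans (by linarith [hst.triangle x₂ x₃ x₄])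
  -- a pair with large `ρ j`
  have key : ∀ x y, ρ j x₁ x₄ ≤ 4 * ρ j x y → (1 / 4) ^ s j ≤ ρ j x y → pre s ρ x y ≤ M →
      pre s ρ x₁ x₄ ≤ 2 * M := by
    intro x y h4 h5 h6
    have h7 := h.le_pre h5
    have h8 : √(ρ j x₁ x₄) ≤ 2 * √(ρ j x y) := by
      rw [Real.sqrt_le_left (by positivity)]
      rw [mul_pow, Real.sq_sqrt (hst.nonneg x y)]
      linarith
    rw [h3]
    calc ee s j * √(ρ j x₁ x₄) ≤ ee s j * (2 * √(ρ j x y)) :=
          mul_le_mul_of_nonneg_left h8 (ee_pos s j).le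
      _ = 2 * (ee s j * √(ρ j x y)) := by ring
      _ ≤ 2 * M := by linarith
  by_cases hfar : (1 / 4) ^ s j ≤ ρ j x₁ x₂ ∨ (1 / 4) ^ s j ≤ ρ j x₂ x₃ ∨
      (1 / 4) ^ s j ≤ ρ j x₃ x₄
  · by_cases ha : ρ j x₂ x₃ ≤ ρ j x₁ x₂ ∧ ρ j x₃ x₄ ≤ ρ j x₁ x₂
    · refine key x₁ x₂ ?_ ?_ hM1
      · linarith [hst.nonneg x₁ x₂]
      · rcases hfar with hf | hf | hf
        · exact hf
        · exact hf.trans ha.1
        · exact hf.trans ha.2
    · by_cases hb : ρ j x₃ x₄ ≤ ρ j x₂ x₃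
      · have hb' : ρ j x₁ x₂ ≤ ρ j x₂ x₃ := by
          by_contra hc
          push Not at hc
          exact ha ⟨hc.le, hb.trans hc.le⟩
        refine key x₂ x₃ ?_ ?_ hM2
        · linarith [hst.nonneg x₂ x₃]
        · rcases hfar with hf | hf | hf
          · exact hf.trans hb'
          · exact hf
          · exact hf.trans hb
      · push Not at hb
        have hb' : ρ j x₁ x₂ ≤ ρ j x₃ x₄ := by
          by_contra hc
          push Not at hc
          exact ha ⟨(hb.trans hc).le, hc.le⟩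
        refine key x₃ x₄ ?_ ?_ hM3
        · linarith [hst.nonneg x₃ x₄]
        · rcases hfar with hf | hf | hf
          · exact hf.trans hb'
          · exact hf.trans hb.le
          · exact hf
  · push Not at hfar
    obtain ⟨hf1, hf2, hf3⟩ := hfar
    have hpos : (0 : ℝ) < (1 / 4) ^ s j := by positivity
    have h4 : √(ρ j x₁ x₄) ≤ 2 * (1 / 2) ^ s j := by
      rw [← sqrt_quarter, Real.sqrt_le_left (by positivity), mul_pow, Real.sq_sqrt hpos.le]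
      linarith
    have h5 : pre s ρ x₁ x₄ ≤ 2 * ee s (j + 1) := by
      rw [h3, ee_succ]
      calc ee s j * √(ρ j x₁ x₄) ≤ ee s j * (2 * (1 / 2) ^ s j) :=
            mul_le_mul_of_nonneg_left h4 (ee_pos s j).le
        _ = _ := by ring
    have h6 : 3 * ε (j + 1) ≤ d x₁ x₄ := by
      by_contra hc
      exact absurd h1 (not_le.mpr (h.near j _ _ (not_le.mp hc)))
    have h7 : ∀ x y, ε (j + 1) ≤ d x y → pre s ρ x y ≤ M → pre s ρ x₁ x₄ ≤ 2 * M := by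
      intro x y h8 h9
      have h10 : 1 ≤ ρ (j + 1) x y := by
        by_contra hc
        exact absurd ((h.stage (j + 1)).small x y (not_le.mp hc)) (not_lt.mpr h8)
      have h11 := h.le_pre (x := x) (y := y) (j := j + 1)
        (le_trans (pow_le_one₀ (by norm_num) (by norm_num)) h10)
      have h12 : ee s (j + 1) * 1 ≤ ee s (j + 1) * √(ρ (j + 1) x y) :=
        mul_le_mul_of_nonneg_left (Real.one_le_sqrt.mpr h10) (ee_pos s _).le
      linarith
    have h13 : d x₁ x₄ ≤ d x₁ x₂ + d x₂ x₃ + d x₃ x₄ :=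
      (hd x₁ x₂ x₄).trans (by linarith [hd x₂ x₃ x₄])
    by_cases ha : ε (j + 1) ≤ d x₁ x₂
    · exact h7 _ _ ha hM1
    by_cases hb : ε (j + 1) ≤ d x₂ x₃
    · exact h7 _ _ hb hM2
    by_cases hc : ε (j + 1) ≤ d x₃ x₄
    · exact h7 _ _ hc hM3
    push Not at ha hb hc
    linarith

lemma Tower.eq_of_pre (h : Tower k d ε s ρ) (hd : IsCompatibleMetric d) {x y : X}
    (hxy : pre s ρ x y = 0) : x = y := by
  refine hd.eq_of_dist_eq_zero x y ?_
  have h0 : 0 ≤ d x y := by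
    have h1 := hd.dist_triangle x y x
    rw [hd.dist_self, hd.dist_comm y x] at h1
    linarith
  refine le_antisymm ?_ h0
  by_contra hc
  push Not at hc
  obtain ⟨j, hj⟩ := exists_nat_one_div_lt hc
  have h1 : ρ j x y < (1 / 4) ^ s j := h.near_of_pre (by rw [hxy]; exact ee_pos s _)
  have h2 : d x y < ε j := (h.stage j).small x y
    (h1.trans_le (pow_le_one₀ (by norm_num) (by norm_num)))
  have h3 := h.le j
  linarith

end frink

end Pool.Agent.MMD
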