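import Pool.Agent.MMD.Low

/-! # Pseudometrics of low complexity -/

open Set Function

namespace Pool.Agent.MMD

universe u

variable {X : Type u} [TopologicalSpace X]

/-- the metric space structure of a compatible metric -/
@[reducible] def IsCompatibleMetric.metricSpace {d : X → X → ℝ} (hd : IsCompatibleMetric d) :
    MetricSpace X :=
  MetricSpace.ofDistTopology d hd.dist_self hd.dist_comm hd.dist_triangle hd.isOpen_iff
    hd.eq_of_dist_eq_zero

lemma IsCompatibleMetric.continuous {d : X → X → ℝ} (hd : IsCompatibleMetric d) :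
    Continuous fun p : X × X => d p.1 p.2 := by
  let _ := hd.metricSpace
  exact continuous_dist

lemma isCompatibleMetric_dist {X : Type u} [m : MetricSpace X] :
    IsCompatibleMetric (fun x y : X => dist x y) where
  dist_self := dist_self
  eq_of_dist_eq_zero _ _ := eq_of_dist_eq_zero
  dist_comm := dist_comm
  dist_triangle := dist_triangle
  isOpen_iff s := by
    rw [Metric.isOpen_iff]
    refine forall₂_congr fun x _ => exists_congr fun r => and_congr_right fun _ => ?_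
    constructor
    · intro h y hy
      exact h (by rwa [Metric.mem_ball, dist_comm])
    · intro h y hy
      exact h y (by rwa [Metric.mem_ball, dist_comm] at hy)

section sep

variable {ι : Type u} {Y : ι → Type u} [∀ j, TopologicalSpace (Y j)] [∀ j, CompactSpace (Y j)]
  [∀ j, T2Space (Y j)]

lemma exists_finite_sep [CompactSpace X] {d : X → X → ℝ} (hd : IsCompatibleMetric d)
    (π : ∀ j, X → Y j) (hπ : ∀ j, Continuous (π j)) (hsep : ∀ x y, (∀ j, π j x = π j y) → x = y)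
    {ε : ℝ} (hε : 0 < ε) :
    ∃ (n : ℕ) (j : Fin n → ι) (U V : ∀ l : Fin n, Set (Y (j l))),
      (∀ l, Disjoint (closure (U l)) (closure (V l))) ∧
      ∀ x y, ε ≤ d x y → ∃ l, π (j l) x ∈ U l ∧ π (j l) y ∈ V l := by
  classical
  let C : Set (X × X) := {p | ε ≤ d p.1 p.2}
  have hC : IsCompact C := (isClosed_le continuous_const hd.continuous).isCompact
  have h1 : ∀ p : C, ∃ (j : ι) (U V : Set (Y j)), IsOpen U ∧ IsOpen V ∧
      Disjoint (closure U) (closure V) ∧ π j p.1.1 ∈ U ∧ π j p.1.2 ∈ V := by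
    rintro ⟨⟨x, y⟩, hp⟩
    have hxy : x ≠ y := by
      rintro rfl
      have h2 : ε ≤ d x x := hp
      rw [hd.dist_self] at h2
      linarith
    have h2 : ∃ j, π j x ≠ π j y := by
      by_contra h
      push Not at h
      exact hxy (hsep x y h)
    obtain ⟨j, hj⟩ := h2
    obtain ⟨U, hxU, hU, V, hyV, hV, hUV⟩ := exists_open_nhds_disjoint_closure hj
    exact ⟨j, U, V, hU, hV, hUV, hxU, hyV⟩
  choose j U V hU hV hUV hxU hyV using h1
  obtain ⟨t, ht⟩ := hC.elim_finite_subcover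
    (fun p : C => (π (j p) ⁻¹' U p) ×ˢ (π (j p) ⁻¹' V p))
    (fun p => ((hU p).preimage (hπ _)).prod ((hV p).preimage (hπ _)))
    (fun p hp => mem_iUnion.mpr ⟨⟨p, hp⟩, hxU ⟨p, hp⟩, hyV ⟨p, hp⟩⟩)
  let e := t.equivFin.symm
  refine ⟨t.card, fun l => j (e l), fun l => U (e l), fun l => V (e l), fun l => hUV _, ?_⟩
  intro x y hxy
  obtain ⟨p, hp, hpU⟩ := mem_iUnion₂.mp (ht (show (x, y) ∈ C from hxy))
  obtain ⟨l, hl⟩ := e.surjective ⟨p, hp⟩
  have hl' : ((e l : t) : C) = p := by rw [hl]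
  refine ⟨l, ?_⟩
  beta_reduce
  rw [hl']
  exact hpU

end sep

section stage

variable {k : ℕ} {ι : Type u} {Y : ι → Type u} [∀ j, TopologicalSpace (Y j)]
  [∀ j, CompactSpace (Y j)] [∀ j, T2Space (Y j)] [∀ j, AddAction (Fin k → ℤ) (Y j)]
  [∀ j, ContinuousConstVAdd (Fin k → ℤ) (Y j)] [CompactSpace X] [AddAction (Fin k → ℤ) X]
  [ContinuousConstVAdd (Fin k → ℤ) X]

/-- a pseudometric of low complexity -/
structure Stage (k : ℕ) {X : Type u} [TopologicalSpace X] [AddAction (Fin k → ℤ) X]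
    (d : X → X → ℝ) (ε δ : ℝ) (s : ℕ) (ρ : X → X → ℝ) : Prop where
  self : ∀ x, ρ x x = 0
  nonneg : ∀ x y, 0 ≤ ρ x y
  le_one : ∀ x y, ρ x y ≤ 1
  symm : ∀ x y, ρ x y = ρ y x
  triangle : ∀ x y z, ρ x z ≤ ρ x y + ρ y z
  cont : Continuous fun p : X × X => ρ p.1 p.2
  small : ∀ x y, ρ x y < 1 → d x y < ε
  cover : ∃ N₀ : ℕ, ∀ N ≥ N₀, ∃ 𝒰 : Set (Set X), 𝒰.Finite ∧
    Real.log 𝒰.ncard ≤ δ * s * (N : ℝ) ^ k ∧ ⋃₀ 𝒰 = univ ∧
    ∀ U ∈ 𝒰, IsOpen U ∧ ∀ x ∈ U, ∀ y ∈ U, ∀ n ∈ box k N, ρ (n +ᵥ x) (n +ᵥ y) < (1 / 4) ^ s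

theorem exists_stage (hk : 1 ≤ k) {d : X → X → ℝ} (hd : IsCompatibleMetric d)
    (hY : ∀ j, ∃ D, CoveringDimLE (Y j) D) (π : ∀ j, X → Y j) (hπ : ∀ j, Continuous (π j))
    (heq : ∀ j (n : Fin k → ℤ) x, π j (n +ᵥ x) = n +ᵥ π j x)
    (hsep : ∀ x y, (∀ j, π j x = π j y) → x = y) {ε δ : ℝ} (hε : 0 < ε) (hδ : 0 < δ) :
    ∃ s₀ : ℕ, ∀ s ≥ s₀, ∃ ρ, Stage k d ε δ s ρ := by
  classical
  obtain ⟨m, j, U, V, hUV, hcov⟩ := exists_finite_sep hd π hπ hsep hε
  choose D hD using hY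
  have hm : (0 : ℝ) < m + 1 := by positivity
  have h1 : ∀ l : Fin m, ∃ s₀ : ℕ, ∀ s ≥ s₀, ∃ F : C(Y (j l), ℝ), (∀ y, F y ∈ Icc (0 : ℝ) 1) ∧
      (∀ y ∈ closure (U l), F y = 0) ∧ (∀ y ∈ closure (V l), F y = 1) ∧
      LowCpx (k := k) F ((1 / 4) ^ s / 2) (δ / (m + 1) * s) := by
    intro l
    obtain ⟨s₀, hs₀⟩ := exists_low.{u} hk (D (j l)) (div_pos hδ hm)
    exact ⟨s₀, fun s hs => hs₀ s hs (hD (j l)) isClosed_closure isClosed_closure (hUV l)⟩
  choose s₀ hs₀ using h1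
  refine ⟨Finset.univ.sup s₀, fun s hs => ?_⟩
  have h2 : ∀ l : Fin m, ∃ F : C(Y (j l), ℝ), (∀ y, F y ∈ Icc (0 : ℝ) 1) ∧
      (∀ y ∈ closure (U l), F y = 0) ∧ (∀ y ∈ closure (V l), F y = 1) ∧
      LowCpx (k := k) F ((1 / 4) ^ s / 2) (δ / (m + 1) * s) := fun l =>
    hs₀ l s ((Finset.le_sup (Finset.mem_univ l)).trans hs)
  choose F hF1 hF2 hF3 hF4 using h2
  let Φ : X → Fin m → ℝ := fun x l => F l (π (j l) x)
  have hΦ : Continuous Φ := continuous_pi fun l => (F l).continuous.comp (hπ _)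
  refine ⟨fun x y => dist (Φ x) (Φ y), ?_⟩
  constructor
  · exact fun x => dist_self _
  · exact fun x y => dist_nonneg
  · intro x y
    rw [dist_pi_le_iff zero_le_one]
    intro l
    rw [Real.dist_eq, abs_le]
    have h3 := hF1 l (π (j l) x)
    have h4 := hF1 l (π (j l) y)
    simp only [Φ]
    constructor <;> linarith [h3.1, h3.2, h4.1, h4.2]
  · exact fun x y => dist_comm _ _
  · exact fun x y z => dist_triangle _ _ _
  · exact (hΦ.comp continuous_fst).dist (hΦ.comp continuous_snd)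
  · intro x y hxy
    by_contra h
    obtain ⟨l, hx, hy⟩ := hcov x y (not_lt.mp h)
    rw [dist_pi_lt_iff one_pos] at hxy
    have h3 := hxy l
    simp only [Φ] at h3
    rw [hF2 l _ (subset_closure hx), hF3 l _ (subset_closure hy), Real.dist_eq] at h3
    norm_num at h3
  · choose N₀ hN₀ using hF4
    refine ⟨Finset.univ.sup N₀, fun N hN => ?_⟩
    have h3 : ∀ l : Fin m, ∃ 𝒯 : Finset ((Fin k → ℤ) → ℝ),
        Real.log 𝒯.card ≤ δ / (m + 1) * s * (N : ℝ) ^ k ∧
        ∀ x, ∃ t ∈ 𝒯, ∀ n ∈ box k N, |F l (n +ᵥ x) - t n| < (1 / 4) ^ s / 2 := fun l =>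
      hN₀ l N ((Finset.le_sup (Finset.mem_univ l)).trans hN)
    choose 𝒯 h𝒯1 h𝒯2 using h3
    let A : (∀ l, 𝒯 l) → Set X := fun t => ⋂ l, ⋂ n ∈ box k N,
      {x | |F l (π (j l) (n +ᵥ x)) - (t l : (Fin k → ℤ) → ℝ) n| < (1 / 4) ^ s / 2}
    have hA : ∀ t x, x ∈ A t ↔ ∀ l, ∀ n ∈ box k N,
        |F l (π (j l) (n +ᵥ x)) - (t l : (Fin k → ℤ) → ℝ) n| < (1 / 4) ^ s / 2 := by
      intro t x
      simp [A]
    refine ⟨range A, finite_range A, ?_, ?_, ?_⟩
    · rcases Nat.eq_zero_or_pos (range A).ncard with h0 | h0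
      · rw [h0]
        simp only [Nat.cast_zero, Real.log_zero]
        positivity
      have h4 : (range A).ncard ≤ ∏ l, (𝒯 l).card := by
        have h5 : (range A).ncard ≤ Fintype.card (∀ l, 𝒯 l) := by
          rw [← image_univ, ← Nat.card_eq_fintype_card, ← Set.ncard_univ]
          exact Set.ncard_image_le (Set.toFinite _)
        rw [Fintype.card_pi] at h5
        simpa using h5
      have h5 : 0 < ∏ l, (𝒯 l).card := h0.trans_le h4
      have h6 : ∀ l, ((𝒯 l).card : ℝ) ≠ 0 := by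
        intro l h
        have h7 : (𝒯 l).card = 0 := by exact_mod_cast h
        rw [Finset.prod_eq_zero (Finset.mem_univ l) h7] at h5
        exact lt_irrefl _ h5
      calc Real.log (range A).ncard ≤ Real.log (∏ l, ((𝒯 l).card : ℝ)) := by
            refine Real.log_le_log (by exact_mod_cast h0) ?_
            exact_mod_cast h4
        _ = ∑ l, Real.log (𝒯 l).card := Real.log_prod fun l _ => h6 l
        _ ≤ ∑ _l : Fin m, δ / (m + 1) * s * (N : ℝ) ^ k := Finset.sum_le_sum fun l _ => h𝒯1 l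
        _ = m / (m + 1) * (δ * s * (N : ℝ) ^ k) := by
            rw [Finset.sum_const, Finset.card_univ, Fintype.card_fin, nsmul_eq_mul]
            ring
        _ ≤ 1 * (δ * s * (N : ℝ) ^ k) := by
            refine mul_le_mul_of_nonneg_right ?_ (by positivity)
            rw [div_le_one hm]
            linarith
        _ = _ := one_mul _
    · refine eq_univ_of_forall fun x => ?_
      have h4 : ∀ l, ∃ t : 𝒯 l, ∀ n ∈ box k N,
          |F l (n +ᵥ π (j l) x) - (t : (Fin k → ℤ) → ℝ) n| < (1 / 4) ^ s / 2 := by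
        intro l
        obtain ⟨t, ht, ht'⟩ := h𝒯2 l (π (j l) x)
        exact ⟨⟨t, ht⟩, ht'⟩
      choose t ht using h4
      refine ⟨A t, ⟨t, rfl⟩, (hA t x).mpr fun l n hn => ?_⟩
      rw [heq]
      exact ht l n hn
    · rintro _ ⟨t, rfl⟩
      refine ⟨?_, fun x hx y hy n hn => ?_⟩
      · refine isOpen_iInter_of_finite fun l => isOpen_biInter_finset fun n _ => ?_
        exact isOpen_lt ((((F l).continuous.comp (hπ _)).comp
          (continuous_const_vadd n)).sub continuous_const).abs continuous_const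
      · have hpos : (0 : ℝ) < (1 / 4) ^ s := by positivity
        rw [dist_pi_lt_iff hpos]
        intro l
        have h5 := (hA t x).mp hx l n hn
        have h6 := (hA t y).mp hy l n hn
        simp only [Φ]
        rw [Real.dist_eq]
        rw [abs_lt] at *
        constructor <;> linarith [h5.1, h5.2, h6.1, h6.2]

end stage

end Pool.Agent.MMD
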