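import Pool.Agent.MMD.Gen
import Pool.Agent.MMD.Count

/-! # Urysohn functions of low complexity -/

open Set Function

namespace Pool.Agent.MMD

universe u

section hits

variable {Y : Type u} [TopologicalSpace Y] [CompactSpace Y] {G : Type*} [AddGroup G]
  [AddAction G Y] [ContinuousConstVAdd G Y]

lemma exists_eps_hits {C : Set Y} (hC : IsClosed C) (f : C(Y, ℝ)) (w : ℝ) (B : Finset G) (D : ℕ)
    (h : ∀ y, ∀ I ⊆ B, (∀ i ∈ I, i +ᵥ y ∈ C ∧ f (i +ᵥ y) = w) → I.card ≤ D) :
    ∃ ε : ℝ, 0 < ε ∧ ε ≤ 1 / 4 ∧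
      ∀ y, ∀ I ⊆ B, (∀ i ∈ I, i +ᵥ y ∈ C ∧ |f (i +ᵥ y) - w| ≤ ε) → I.card ≤ D := by
  classical
  have h1 : ∀ I ∈ B.powerset, ∀ᶠ ε : ℝ in nhdsWithin 0 (Ioi 0), ∀ y,
      (∀ i ∈ I, i +ᵥ y ∈ C ∧ |f (i +ᵥ y) - w| ≤ ε) → I.card ≤ D := by
    intro I hI
    by_cases hcard : I.card ≤ D
    · exact Filter.Eventually.of_forall fun ε y _ => hcard
    let Z : Set Y := {y | ∀ i ∈ I, i +ᵥ y ∈ C}
    have hZ : IsClosed Z := by
      have : Z = ⋂ i ∈ I, (fun y => i +ᵥ y) ⁻¹' C := by
        ext y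
        simp [Z]
      rw [this]
      exact isClosed_biInter fun i _ => hC.preimage (continuous_const_vadd _)
    let m : Y → ℝ := fun y => ∑ i ∈ I, |f (i +ᵥ y) - w|
    have hm : Continuous m := continuous_finsetSum _ fun i _ =>
      ((f.continuous.comp (continuous_const_vadd i)).sub continuous_const).abs
    have hmpos : ∀ y ∈ Z, 0 < m y := by
      intro y hy
      refine lt_of_le_of_ne (Finset.sum_nonneg fun i _ => abs_nonneg _) fun h0 => hcard ?_
      refine h y I (Finset.mem_powerset.mp hI) fun i hi => ⟨hy i hi, ?_⟩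
      have h2 := (Finset.sum_eq_zero_iff_of_nonneg fun i _ => abs_nonneg _).mp h0.symm i hi
      exact sub_eq_zero.mp (abs_eq_zero.mp h2)
    rcases Z.eq_empty_or_nonempty with hZe | hZn
    · refine Filter.Eventually.of_forall fun ε y hy => ?_
      have : y ∈ Z := fun i hi => (hy i hi).1
      rw [hZe] at this
      exact absurd this (notMem_empty _)
    obtain ⟨y₀, hy₀, hmin⟩ := hZ.isCompact.exists_isMinOn hZn hm.continuousOn
    have hμ := hmpos y₀ hy₀
    have hpos : 0 < m y₀ / (I.card + 1) := by positivity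
    filter_upwards [Ioo_mem_nhdsGT hpos] with ε hε y hy
    exfalso
    have hyZ : y ∈ Z := fun i hi => (hy i hi).1
    have h3 : m y ≤ I.card * ε := by
      have := Finset.sum_le_card_nsmul I (fun i => |f (i +ᵥ y) - w|) ε fun i hi => (hy i hi).2
      simpa [m] using this
    have h4 : (I.card : ℝ) * ε < m y₀ := by
      have h5 := hε.2
      rw [lt_div_iff₀ (by positivity)] at h5
      have h6 := hε.1
      nlinarith
    have h7 : m y₀ ≤ m y := hmin hyZ
    linarith
  have h2 := (Filter.eventually_all_finset B.powerset).mpr h1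
  have h3 : ∀ᶠ ε : ℝ in nhdsWithin 0 (Ioi 0), ε ∈ Ioo (0 : ℝ) (1 / 4) :=
    Ioo_mem_nhdsGT (by norm_num)
  obtain ⟨ε, hε1, hε2⟩ := (h2.and h3).exists
  exact ⟨ε, hε2.1, hε2.2.le, fun y I hI hy => hε1 I (Finset.mem_powerset.mpr hI) y hy⟩

end hits

/-- truncation to `[0,1]` -/
noncomputable def clamp (t : ℝ) : ℝ := max 0 (min 1 t)

lemma continuous_clamp : Continuous clamp := continuous_const.max (continuous_const.min continuous_id)

lemma clamp_mem (t : ℝ) : clamp t ∈ Icc (0 : ℝ) 1 :=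
  ⟨le_max_left _ _, max_le zero_le_one (min_le_left _ _)⟩

lemma clamp_of_nonpos {t : ℝ} (h : t ≤ 0) : clamp t = 0 :=
  max_eq_left ((min_le_right _ _).trans h)

lemma clamp_of_one_le {t : ℝ} (h : 1 ≤ t) : clamp t = 1 := by
  rw [clamp, min_eq_left h]
  exact max_eq_right zero_le_one

lemma abs_clamp_sub_le (a b : ℝ) : |clamp a - clamp b| ≤ |a - b| := by
  unfold clamp
  rw [max_comm 0, max_comm 0]
  refine (abs_max_sub_max_le_abs _ _ _).trans ?_
  have := abs_min_sub_min_le_max 1 a 1 b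
  simpa using this

variable {k : ℕ}

theorem exists_urysohn (hk : 1 ≤ k) {Y : Type u} [TopologicalSpace Y] [CompactSpace Y] [T2Space Y]
    [AddAction (Fin k → ℤ) Y] [ContinuousConstVAdd (Fin k → ℤ) Y] {D : ℕ}
    (hD : CoveringDimLE Y D) {Q R K : ℕ} (hQ : 2 ≤ Q) (hK : 1 ≤ K) {A₀ A₁ : Set Y}
    (hA₀ : IsClosed A₀) (hA₁ : IsClosed A₁) (hA : Disjoint A₀ A₁) :
    ∃ F : C(Y, ℝ), (∀ y, F y ∈ Icc (0 : ℝ) 1) ∧ (∀ y ∈ A₀, F y = 0) ∧ (∀ y ∈ A₁, F y = 1) ∧
      ∀ y, ∃ S ⊆ box k (Q * R), S.card ≤ 2 * D * R ^ k ∧ ∃ v ∈ short k Q,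
        ∃ u : (Fin k → ℤ) → ℝ, (∀ n, u n ∈ Icc (0 : ℝ) 1) ∧ (∀ n, u (n + v) = u n) ∧
        ∀ n ∈ box k (Q * R), n ∉ S →
          F (n +ᵥ y) = 0 ∨ F (n +ᵥ y) = 1 ∨ |F (n +ᵥ y) - u n| < 1 / (4 * K) := by
  classical
  have hK' : (0 : ℝ) < K := by exact_mod_cast hK
  obtain ⟨f, hf0, hf1, hfI⟩ := exists_continuous_zero_one_of_isClosed hA₀ hA₁ hA
  -- short periods
  let P : Set Y := {y | ∃ v ∈ short k Q, v +ᵥ y = y}
  have hP : IsClosed P := by
    have : P = ⋃ v ∈ short k Q, {y | v +ᵥ y = y} := by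
      ext y
      simp [P]
    rw [this]
    exact (short k Q).finite_toSet.isClosed_biUnion fun v _ =>
      isClosed_eq (continuous_const_vadd v) continuous_id
  let τ : ℝ := 1 / (20 * K)
  have hτ : 0 < τ := by positivity
  have hτ4 : τ ≤ 1 / 4 := by
    simp only [τ]
    apply one_div_le_one_div_of_le (by norm_num)
    have : (1 : ℝ) ≤ K := by exact_mod_cast hK
    linarith
  let J : Finset (Fin k → ℤ) := Fintype.piFinset fun _ => Finset.Ioo (-((Q * R : ℕ) : ℤ)) (Q * R : ℕ)
  let O : Set Y := {y | ∃ p ∈ P, ∀ j ∈ J, |f (j +ᵥ y) - f (j +ᵥ p)| < τ}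
  have hO : IsOpen O := by
    have : O = ⋃ p ∈ P, ⋂ j ∈ J, {y | |f (j +ᵥ y) - f (j +ᵥ p)| < τ} := by
      ext y
      simp [O]
    rw [this]
    refine isOpen_biUnion fun p _ => isOpen_biInter_finset fun j _ => ?_
    exact isOpen_lt ((f.continuous.comp (continuous_const_vadd j)).sub continuous_const).abs
      continuous_const
  have hPO : P ⊆ O := fun p hp => ⟨p, hp, fun j _ => by simpa using hτ⟩
  obtain ⟨g, hg0, hg1, hgI⟩ := exists_continuous_zero_one_of_isClosed hP hO.isClosed_compl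
    (disjoint_left.mpr fun y hy hy' => hy' (hPO hy))
  have hBC : ∀ (C : Set Y), (∀ y ∈ C, y ∉ P) → ∀ y ∈ C, ∀ i ∈ box k Q, ∀ j ∈ box k Q, i ≠ j →
      (i - j) +ᵥ y ≠ y := fun C hC y hy i hi j hj hij h =>
    hC y hy ⟨i - j, sub_mem_short hi hj hij, h⟩
  obtain ⟨g', hg', hgG⟩ := exists_generic hD (C := {y | 1 / 4 ≤ g y})
    (isClosed_le continuous_const g.continuous) (box k Q)
    (hBC _ fun y hy hyP => by
      have h1 : g y = 0 := hg0 hyP
      have h2 : 1 / 4 ≤ g y := hy
      rw [h1] at h2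
      norm_num at h2) (1 / 2) g (η := 1 / 4) (by norm_num)
  obtain ⟨ε', hε'0, hε'4, hε'⟩ := exists_eps_hits (C := univ) isClosed_univ g' (1 / 2) (box k Q) D
    fun y I hI hy => hgG y I hI fun i hi => ⟨by
      have h1 := (hy i hi).2
      have h2 := abs_lt.mp (hg' (i +ᵥ y))
      show 1 / 4 ≤ g (i +ᵥ y)
      linarith [h2.1, h2.2], (hy i hi).2⟩
  obtain ⟨f', hf', hfG⟩ := exists_generic hD (C := {y | 1 / 2 ≤ g' y})
    (isClosed_le continuous_const g'.continuous) (box k Q)
    (hBC _ fun y hy hyP => by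
      have h1 : g y = 0 := hg0 hyP
      have h2 : 1 / 2 ≤ g' y := hy
      have h3 := abs_lt.mp (hg' y)
      linarith [h3.1, h3.2]) (1 / 2) f hτ
  obtain ⟨ε, hε0, hε4, hε⟩ := exists_eps_hits (C := {y | 1 / 2 ≤ g' y})
    (isClosed_le continuous_const g'.continuous) f' (1 / 2) (box k Q) D hfG
  -- the function
  let lam : Y → ℝ := fun y => clamp ((1 / 2 - g' y) / ε')
  let st : Y → ℝ := fun y => clamp ((f' y - 1 / 2) / (2 * ε) + 1 / 2)
  let so : Y → ℝ := fun y => clamp (2 * f' y - 1 / 2)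
  have hlam : Continuous lam := continuous_clamp.comp
    ((continuous_const.sub g'.continuous).div_const _)
  have hst : Continuous st := continuous_clamp.comp
    (((f'.continuous.sub continuous_const).div_const _).add continuous_const)
  have hso : Continuous so := continuous_clamp.comp
    ((continuous_const.mul f'.continuous).sub continuous_const)
  have hst0 : ∀ y, f' y ≤ 1 / 2 - ε → st y = 0 := fun y hy => clamp_of_nonpos (by
    have : (f' y - 1 / 2) / (2 * ε) ≤ -(1 / 2) := by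
      rw [div_le_iff₀ (by positivity)]
      linarith
    linarith)
  have hst1 : ∀ y, 1 / 2 + ε ≤ f' y → st y = 1 := fun y hy => clamp_of_one_le (by
    have : 1 / 2 ≤ (f' y - 1 / 2) / (2 * ε) := by
      rw [le_div_iff₀ (by positivity)]
      linarith
    linarith)
  let F : C(Y, ℝ) := ⟨fun y => (1 - lam y) * st y + lam y * so y,
    ((continuous_const.sub hlam).mul hst).add (hlam.mul hso)⟩
  have hF : ∀ y, F y = (1 - lam y) * st y + lam y * so y := fun y => rfl
  refine ⟨F, ?_, ?_, ?_, ?_⟩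
  · intro y
    have h1 := clamp_mem ((1 / 2 - g' y) / ε')
    have h2 := clamp_mem ((f' y - 1 / 2) / (2 * ε) + 1 / 2)
    have h3 := clamp_mem (2 * f' y - 1 / 2)
    rw [hF]
    constructor
    · exact add_nonneg (mul_nonneg (sub_nonneg.mpr h1.2) h2.1) (mul_nonneg h1.1 h3.1)
    · have h4 : (1 - lam y) * st y ≤ (1 - lam y) * 1 :=
        mul_le_mul_of_nonneg_left h2.2 (sub_nonneg.mpr h1.2)
      have h5 : lam y * so y ≤ lam y * 1 := mul_le_mul_of_nonneg_left h3.2 h1.1
      linarith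
  · intro y hy
    have h1 : f y = 0 := hf0 hy
    have h2 := abs_lt.mp (hf' y)
    have h3 : st y = 0 := hst0 y (by linarith [h2.1, h2.2])
    have h4 : so y = 0 := clamp_of_nonpos (by linarith [h2.1, h2.2])
    rw [hF, h3, h4]
    ring
  · intro y hy
    have h1 : f y = 1 := hf1 hy
    have h2 := abs_lt.mp (hf' y)
    have h3 : st y = 1 := hst1 y (by linarith [h2.1, h2.2])
    have h4 : so y = 1 := clamp_of_one_le (by linarith [h2.1, h2.2])
    rw [hF, h3, h4]
    ring
  · intro y
    let p₁ : (Fin k → ℤ) → Prop := fun n => |g' (n +ᵥ y) - 1 / 2| ≤ ε'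
    let p₂ : (Fin k → ℤ) → Prop := fun n => 1 / 2 ≤ g' (n +ᵥ y) ∧ |f' (n +ᵥ y) - 1 / 2| ≤ ε
    have hQ0 : 0 < Q := by omega
    have hc₁ : ((box k (Q * R)).filter p₁).card ≤ D * R ^ k := by
      refine card_filter_tiles hQ0 p₁ fun c => ?_
      refine hε' (((Q : ℤ) • c) +ᵥ y) _ (Finset.filter_subset _ _) fun i hi => ⟨mem_univ _, ?_⟩
      have := (Finset.mem_filter.mp hi).2
      rw [vadd_vadd]
      exact this
    have hc₂ : ((box k (Q * R)).filter p₂).card ≤ D * R ^ k := by
      refine card_filter_tiles hQ0 p₂ fun c => ?_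
      refine hε (((Q : ℤ) • c) +ᵥ y) _ (Finset.filter_subset _ _) fun i hi => ?_
      have := (Finset.mem_filter.mp hi).2
      rw [vadd_vadd]
      exact this
    refine ⟨(box k (Q * R)).filter p₁ ∪ (box k (Q * R)).filter p₂, ?_, ?_, ?_⟩
    · exact Finset.union_subset (Finset.filter_subset _ _) (Finset.filter_subset _ _)
    · refine (Finset.card_union_le _ _).trans ?_
      calc _ ≤ D * R ^ k + D * R ^ k := add_le_add hc₁ hc₂
        _ = 2 * D * R ^ k := by ring
    · -- the values outside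
      have hout : ∀ n ∈ box k (Q * R), n ∉ (box k (Q * R)).filter p₁ ∪ (box k (Q * R)).filter p₂ →
          F (n +ᵥ y) = 0 ∨ F (n +ᵥ y) = 1 ∨ (g' (n +ᵥ y) < 1 / 2 ∧ F (n +ᵥ y) = so (n +ᵥ y)) := by
        intro n hn hnS
        rw [Finset.mem_union, not_or, Finset.mem_filter, Finset.mem_filter] at hnS
        have h1 : ¬ p₁ n := fun h => hnS.1 ⟨hn, h⟩
        have h2 : ¬ p₂ n := fun h => hnS.2 ⟨hn, h⟩
        by_cases hg : g' (n +ᵥ y) < 1 / 2
        · right
          right
          refine ⟨hg, ?_⟩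
          have h3 : ε' < |g' (n +ᵥ y) - 1 / 2| := not_le.mp h1
          rw [abs_of_neg (by linarith)] at h3
          have h4 : lam (n +ᵥ y) = 1 := clamp_of_one_le (by
            rw [le_div_iff₀ hε'0]
            linarith)
          rw [hF, h4]
          ring
        · push Not at hg
          have h4 : lam (n +ᵥ y) = 0 := clamp_of_nonpos
            (div_nonpos_of_nonpos_of_nonneg (by linarith) hε'0.le)
          have h3 : ε < |f' (n +ᵥ y) - 1 / 2| := by
            by_contra h
            exact h2 ⟨hg, not_lt.mp h⟩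
          rcases lt_abs.mp h3 with h5 | h5
          · right
            left
            rw [hF, h4, hst1 _ (by linarith)]
            ring
          · left
            rw [hF, h4, hst0 _ (by linarith)]
            ring
      have hshort : (short k Q).Nonempty := by
        refine ⟨fun _ => 1, mem_short.mpr ⟨fun h => ?_, fun i => ?_⟩⟩
        · have := congrFun h ⟨0, hk⟩
          simp at this
        · constructor <;> omega
      by_cases hin : ∃ n₀ ∈ box k (Q * R), g' (n₀ +ᵥ y) < 1 / 2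
      · obtain ⟨n₀, hn₀, hgn⟩ := hin
        have h1 : n₀ +ᵥ y ∈ O := by
          by_contra h
          have h2 : g (n₀ +ᵥ y) = 1 := hg1 h
          have h3 := abs_lt.mp (hg' (n₀ +ᵥ y))
          linarith [h3.1, h3.2]
        obtain ⟨p, ⟨v, hv, hvp⟩, hp⟩ := h1
        refine ⟨v, hv, fun n => clamp (2 * f ((n - n₀) +ᵥ p) - 1 / 2), fun n => clamp_mem _,
          fun n => ?_, fun n hn hnS => ?_⟩
        · have : (n + v - n₀) +ᵥ p = (n - n₀) +ᵥ p := by
            rw [show n + v - n₀ = (n - n₀) + v by abel, add_vadd, hvp]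
          show clamp (2 * f ((n + v - n₀) +ᵥ p) - 1 / 2) = clamp (2 * f ((n - n₀) +ᵥ p) - 1 / 2)
          rw [this]
        · rcases hout n hn hnS with h | h | h
          · exact Or.inl h
          · exact Or.inr (Or.inl h)
          · right
            right
            rw [h.2]
            refine (abs_clamp_sub_le _ _).trans_lt ?_
            have hJ : n - n₀ ∈ J := by
              simp only [J, Fintype.mem_piFinset, Finset.mem_Ioo, Pi.sub_apply]
              intro i
              have h3 := mem_box.mp hn i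
              have h4 := mem_box.mp hn₀ i
              constructor <;> omega
            have h3 := hp (n - n₀) hJ
            rw [vadd_vadd, sub_add_cancel] at h3
            have h4 := hf' (n +ᵥ y)
            have h5 : |2 * f' (n +ᵥ y) - 1 / 2 - (2 * f ((n - n₀) +ᵥ p) - 1 / 2)| ≤
                2 * |f' (n +ᵥ y) - f (n +ᵥ y)| + 2 * |f (n +ᵥ y) - f ((n - n₀) +ᵥ p)| := by
              rw [show 2 * f' (n +ᵥ y) - 1 / 2 - (2 * f ((n - n₀) +ᵥ p) - 1 / 2) =
                2 * (f' (n +ᵥ y) - f (n +ᵥ y)) + 2 * (f (n +ᵥ y) - f ((n - n₀) +ᵥ p)) by ring]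
              refine (abs_add_le _ _).trans_eq ?_
              rw [abs_mul, abs_mul, abs_two]
            refine h5.trans_lt ?_
            have h6 : 4 * τ < 1 / (4 * K) := by
              simp only [τ]
              rw [show (4 : ℝ) * (1 / (20 * K)) = 1 / (5 * K) by field_simp; norm_num]
              apply one_div_lt_one_div_of_lt <;> linarith
            linarith
      · push Not at hin
        obtain ⟨v, hv⟩ := hshort
        refine ⟨v, hv, fun _ => 0, fun _ => ⟨le_refl _, zero_le_one⟩, fun _ => rfl,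
          fun n hn hnS => ?_⟩
        rcases hout n hn hnS with h | h | h
        · exact Or.inl h
        · exact Or.inr (Or.inl h)
        · exact absurd h.1 (not_lt.mpr (hin n hn))

end Pool.Agent.MMD
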