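import Pool.Agent.MMD.Metric

/-! # The metric mean dimension of the constructed metric is zero -/

open Set Function Filter Topology
open scoped NNReal

namespace Pool.Agent.MMD

universe u

variable {k : ℕ} {X : Type u} [TopologicalSpace X] [AddAction (Fin k → ℤ) X]
  {d : X → X → ℝ} {ε : ℕ → ℝ} {s : ℕ → ℕ} {ρ : ℕ → X → X → ℝ}

lemma Tower.ee_le (h : Tower k d ε s ρ) (j : ℕ) : ee s j ≤ (1 / 2) ^ j := by
  induction j with
  | zero => simp [ee]
  | succ j ih =>
    rw [ee_succ, pow_succ]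
    have h1 : (1 / 2 : ℝ) ^ s j ≤ 1 / 2 := by
      calc (1 / 2 : ℝ) ^ s j ≤ (1 / 2) ^ 1 :=
            pow_le_pow_of_le_one (by norm_num) (by norm_num) (by have := h.two_le j; omega)
        _ = 1 / 2 := pow_one _
    exact mul_le_mul ih h1 (by positivity) (by positivity)

theorem Tower.exists_metric (h : Tower k d ε s ρ) (hd : IsCompatibleMetric d) :
    ∃ D : X → X → ℝ, IsCompatibleMetric D ∧
      ∀ x y, D x y ≤ pre s ρ x y ∧ pre s ρ x y ≤ 2 * D x y := by
  let f : X → X → ℝ≥0 := fun x y => ⟨pre s ρ x y, pre_nonneg s ρ x y⟩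
  have f1 : ∀ x, f x x = 0 := fun x => NNReal.eq (h.pre_self x)
  have f2 : ∀ x y, f x y = f y x := fun x y => NNReal.eq (h.pre_symm x y)
  have f3 : ∀ x₁ x₂ x₃ x₄, f x₁ x₄ ≤ 2 * max (f x₁ x₂) (max (f x₂ x₃) (f x₃ x₄)) := by
    intro x₁ x₂ x₃ x₄
    rw [← NNReal.coe_le_coe]
    push_cast
    exact h.quasi hd.dist_triangle x₁ x₂ x₃ x₄
  let m := PseudoMetricSpace.ofPreNNDist f f1 f2
  let D : X → X → ℝ := fun x y => m.dist x y
  have hD1 : ∀ x y, D x y ≤ pre s ρ x y := PseudoMetricSpace.dist_ofPreNNDist_le f f1 f2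
  have hD2 : ∀ x y, pre s ρ x y ≤ 2 * D x y :=
    PseudoMetricSpace.le_two_mul_dist_ofPreNNDist f f1 f2 f3
  refine ⟨D, ?_, fun x y => ⟨hD1 x y, hD2 x y⟩⟩
  constructor
  · exact m.dist_self
  · intro x y hxy
    refine h.eq_of_pre hd (le_antisymm ?_ (pre_nonneg _ _ _ _))
    have h1 := hD2 x y
    rw [hxy] at h1
    linarith
  · exact m.dist_comm
  · exact m.dist_triangle
  · intro t
    rw [hd.isOpen_iff]
    refine forall₂_congr fun x _ => ⟨?_, ?_⟩
    · rintro ⟨r, hr, h1⟩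
      obtain ⟨j, hj⟩ := exists_nat_one_div_lt hr
      have h0 := ee_pos s (j + 1)
      refine ⟨ee s (j + 1) / 2, by positivity, fun y hy => h1 y ?_⟩
      have h2 : ρ j x y < (1 / 4) ^ s j := h.near_of_pre (by have := hD2 x y; linarith)
      have h3 := (h.stage j).small x y (h2.trans_le (pow_le_one₀ (by norm_num) (by norm_num)))
      have h4 := h.le j
      linarith
    · rintro ⟨r, hr, h1⟩
      obtain ⟨n, hn⟩ := exists_pow_lt_of_lt_one hr (by norm_num : (1 / 2 : ℝ) < 1)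
      have h0 := h.pos (n + 1)
      refine ⟨3 * ε (n + 1), by positivity, fun y hy => h1 y ?_⟩
      have h2 := h.pre_le (h.near n x y hy)
      have h3 := h.ee_le (n + 1)
      have h4 : (1 / 2 : ℝ) ^ (n + 1) ≤ (1 / 2) ^ n :=
        pow_le_pow_of_le_one (by norm_num) (by norm_num) (by omega)
      have h5 := hD1 x y
      linarith

lemma coverRate_nonneg (D : X → X → ℝ) (ε : ℝ) : 0 ≤ coverRate k D ε := by
  refine le_limsup_of_frequently_le' (Frequently.of_forall fun N => ?_)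
  rw [← EReal.coe_zero, EReal.coe_le_coe_iff]
  exact div_nonneg (Real.log_natCast_nonneg _) (by positivity)

lemma Tower.coverRate_le (h : Tower k d ε s ρ) {D : X → X → ℝ}
    (hD : ∀ x y, D x y ≤ pre s ρ x y) (j : ℕ) :
    coverRate k D (2 * ee s (j + 1)) ≤ ((1 / ((j : ℝ) + 1) * s j : ℝ) : EReal) := by
  obtain ⟨N₀, hN₀⟩ := (h.stage j).cover
  refine limsup_le_of_le (by isBoundedDefault) ?_
  filter_upwards [eventually_ge_atTop (max N₀ 1)] with N hN
  obtain ⟨𝒰, h1, h2, h3, h4⟩ := hN₀ N ((le_max_left _ _).trans hN)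
  have hN1 : (0 : ℝ) < (N : ℝ) ^ k := by
    have : 1 ≤ N := (le_max_right _ _).trans hN
    positivity
  rw [EReal.coe_le_coe_iff, div_le_iff₀ hN1]
  refine le_trans ?_ h2
  have h5 : coverNum k D N (2 * ee s (j + 1)) ≤ 𝒰.ncard := by
    refine Nat.sInf_le ⟨𝒰, h1, rfl, fun U hU => ⟨(h4 U hU).1, ee s (j + 1), ?_, ?_⟩, h3⟩
    · have := ee_pos s (j + 1)
      linarith
    · intro x hx y hy n hn
      exact (hD _ _).trans (h.pre_le ((h4 U hU).2 x hx y hy n hn))
  rcases Nat.eq_zero_or_pos (coverNum k D N (2 * ee s (j + 1))) with h6 | h6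
  · rw [h6]
    simp only [Nat.cast_zero, Real.log_zero]
    exact Real.log_natCast_nonneg _
  · exact Real.log_le_log (by exact_mod_cast h6) (by exact_mod_cast h5)

lemma Tower.le_log (h : Tower k d ε s ρ) (j : ℕ) :
    (s j : ℝ) ≤ 4 * Real.log (1 / (2 * ee s (j + 1))) := by
  have h0 := ee_pos s (j + 1)
  have h1 : ee s (j + 1) ≤ (1 / 2) ^ s j := by
    rw [ee_succ]
    refine mul_le_of_le_one_left (by positivity) ?_
    exact (h.ee_le j).trans (pow_le_one₀ (by norm_num) (by norm_num))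
  have h2 : Real.log (ee s (j + 1)) ≤ -(s j * Real.log 2) := by
    refine (Real.log_le_log h0 h1).trans_eq ?_
    rw [Real.log_pow, one_div, Real.log_inv]
    ring
  rw [one_div, Real.log_inv, Real.log_mul (by norm_num) h0.ne']
  have h3 : (2 : ℝ) ≤ s j := by exact_mod_cast h.two_le j
  have h4 := Real.log_two_gt_d9
  nlinarith

theorem Tower.mmdim_eq_zero (h : Tower k d ε s ρ) {D : X → X → ℝ}
    (hD : ∀ x y, D x y ≤ pre s ρ x y) : mmdim k D = 0 := by
  refine le_antisymm ?_ ?_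
  · let g : ℝ → EReal := fun ε => coverRate k D ε / ((Real.log (1 / ε) : ℝ) : EReal)
    let v : ℕ → ℝ := fun j => 2 * ee s (j + 1)
    have hv : Tendsto v atTop (𝓝[>] 0) := by
      refine tendsto_nhdsWithin_iff.mpr ⟨?_, Eventually.of_forall fun j => ?_⟩
      · have h1 : Tendsto (fun j : ℕ => 2 * (1 / 2 : ℝ) ^ (j + 1)) atTop (𝓝 0) := by
          have h2 : Tendsto (fun j : ℕ => (1 / 2 : ℝ) ^ (j + 1)) atTop (𝓝 0) :=
            (tendsto_pow_atTop_nhds_zero_of_lt_one (by norm_num) (by norm_num)).comp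
              (tendsto_add_atTop_nat 1)
          simpa using h2.const_mul 2
        refine squeeze_zero (fun j => ?_) (fun j => ?_) h1
        · have := ee_pos s (j + 1)
          positivity
        · exact mul_le_mul_of_nonneg_left (h.ee_le (j + 1)) (by norm_num)
      · have := ee_pos s (j + 1)
        simp only [mem_Ioi, v]
        positivity
    have h1 : ∀ j, g (v j) ≤ ((4 / ((j : ℝ) + 1) : ℝ) : EReal) := by
      intro j
      have h2 := h.le_log j
      have h3 : (2 : ℝ) ≤ s j := by exact_mod_cast h.two_le j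
      have hL : 0 < Real.log (1 / (2 * ee s (j + 1))) := by linarith
      refine (EReal.div_le_div_right_of_nonneg (by exact_mod_cast hL.le)
        (h.coverRate_le hD j)).trans ?_
      rw [← EReal.coe_div, EReal.coe_le_coe_iff, div_le_iff₀ hL]
      have h4 : (0 : ℝ) < (j : ℝ) + 1 := by positivity
      have h5 : 1 / ((j : ℝ) + 1) * s j ≤ 1 / ((j : ℝ) + 1) *
          (4 * Real.log (1 / (2 * ee s (j + 1)))) := mul_le_mul_of_nonneg_left h2 (by positivity)
      refine h5.trans_eq ?_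
      ring
    have h2 : Tendsto (fun j : ℕ => ((4 / ((j : ℝ) + 1) : ℝ) : EReal)) atTop (𝓝 0) := by
      rw [← EReal.coe_zero]
      refine (continuous_coe_real_ereal.tendsto 0).comp ?_
      have h3 := (tendsto_one_div_add_atTop_nhds_zero_nat (𝕜 := ℝ)).const_mul 4
      simpa [div_eq_mul_inv] using h3
    calc liminf g (𝓝[>] 0) ≤ liminf g (map v atTop) := liminf_le_liminf_of_le hv
      _ = liminf (g ∘ v) atTop := rfl
      _ ≤ liminf (fun j : ℕ => ((4 / ((j : ℝ) + 1) : ℝ) : EReal)) atTop :=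
        liminf_le_liminf (Eventually.of_forall h1)
      _ = 0 := h2.liminf_eq
  · refine le_liminf_of_le (by isBoundedDefault) ?_
    filter_upwards [Ioo_mem_nhdsGT (one_pos : (0 : ℝ) < 1)] with ε hε
    refine EReal.div_nonneg (coverRate_nonneg D ε) ?_
    rw [← EReal.coe_zero, EReal.coe_le_coe_iff]
    refine Real.log_nonneg ?_
    rw [le_div_iff₀ hε.1]
    linarith [hε.2]

theorem exists_metric_zero [CompactSpace X] (hd : IsCompatibleMetric d)
    (hst : ∀ ε > 0, ∀ δ > 0, ∃ s₀ : ℕ, ∀ s ≥ s₀, ∃ ρ, Stage k d ε δ s ρ) :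
    ∃ D : X → X → ℝ, IsCompatibleMetric D ∧ mmdim k D = 0 := by
  obtain ⟨ε, s, ρ, h⟩ := exists_tower hd hst
  obtain ⟨D, hD, hD'⟩ := h.exists_metric hd
  exact ⟨D, hD, h.mmdim_eq_zero fun x y => (hD' x y).1⟩

end Pool.Agent.MMD
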